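import Pool.Agent.TH522.UG.Main

/-!
The mixed hierarchy: Sherali-Adams together with the basic semidefinite program.
-/

namespace Pool.Agent.TH522.UG

open Finset Pool.Agent.H647R3.UG Pool.Agent.H573R3.SL

/-- `f` depends only on the labels of the vertices in `S` -/
def Dep {V A : Type} (S : Finset V) (f : (V → A) → ℝ) : Prop :=
  ∀ x y : V → A, (∀ v ∈ S, x v = y v) → f x = f y

/-- `k` levels of the mixed hierarchy -/
structure Mixed {V A : Type} [Fintype V] (k : ℕ) (L : ((V → A) → ℝ) →ₗ[ℝ] ℝ) : Prop where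
  one : L (fun _ => 1) = 1
  junta : ∀ S : Finset V, S.card ≤ k + 2 → ∀ f : (V → A) → ℝ, Dep S f → (∀ x, 0 ≤ f x) → 0 ≤ L f
  psd : ∀ S : Finset V, S.card ≤ k → ∀ g : (V → A) → ℝ, Dep S g → (∀ x, 0 ≤ g x) →
    ∀ c : V → A → ℝ, 0 ≤ L (fun x => g x * (∑ v, c v (x v)) ^ 2)

namespace Mx

variable {V A : Type} [Fintype V] [DecidableEq V] [Fintype A] [DecidableEq A]

theorem ind_nonneg (u : V) (a : A) (x : V → A) : 0 ≤ ind u a x := by
  unfold ind; split_ifs <;> norm_num

theorem ind_le_one (u : V) (a : A) (x : V → A) : ind u a x ≤ 1 := by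
  unfold ind; split_ifs <;> norm_num

theorem sat_nonneg (u v : V) (π : Equiv.Perm A) (x : V → A) : 0 ≤ sat u v π x := by
  unfold sat; split_ifs <;> norm_num

theorem sat_le_one (u v : V) (π : Equiv.Perm A) (x : V → A) : sat u v π x ≤ 1 := by
  unfold sat; split_ifs <;> norm_num

theorem dep_ind (u : V) (a : A) (S : Finset V) (hu : u ∈ S) : Dep S (ind u a) := by
  intro x y h
  unfold ind
  rw [h u hu]

theorem dep_sat (u v : V) (π : Equiv.Perm A) (S : Finset V) (hu : u ∈ S) (hv : v ∈ S) :
    Dep S (sat u v π) := by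
  intro x y h
  unfold sat
  rw [h u hu, h v hv]

theorem dep_mul {S : Finset V} {f g : (V → A) → ℝ} (hf : Dep S f) (hg : Dep S g) :
    Dep S (fun x => f x * g x) := by
  intro x y h
  show f x * g x = f y * g y
  rw [hf x y h, hg x y h]

theorem dep_mono {S T : Finset V} {f : (V → A) → ℝ} (hf : Dep S f) (h : S ⊆ T) : Dep T f :=
  fun x y hxy => hf x y fun v hv => hxy v (h hv)

theorem hsq (u : V) (a : A) (x : V → A) : ind u a x * ind u a x = ind u a x := by
  unfold ind
  split_ifs <;> simp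

theorem pr_nonneg {k : ℕ} {L : ((V → A) → ℝ) →ₗ[ℝ] ℝ} (hL : Mixed k L) (u : V) (a : A) :
    0 ≤ pr L u a :=
  hL.junta {u} (by simp) _ (dep_ind u a _ (by simp)) (ind_nonneg u a)

theorem pr2_nonneg {k : ℕ} {L : ((V → A) → ℝ) →ₗ[ℝ] ℝ} (hL : Mixed k L) (u v : V) (a b : A) :
    0 ≤ pr2 L u v a b := by
  refine hL.junta {u, v} ?_ _ (dep_mul (dep_ind u a _ (by simp)) (dep_ind v b _ (by simp)))
    fun x => mul_nonneg (ind_nonneg u a x) (ind_nonneg v b x)
  exact (card_le_two).trans (by omega)

theorem law {k : ℕ} {L : ((V → A) → ℝ) →ₗ[ℝ] ℝ} (hL : Mixed k L) (u v : V) :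
    IsLaw (pr2 L u v) (pr L u) (pr L v) :=
  ⟨pr2_nonneg hL u v, FB.left L u v, FB.right L u v, FB.one L hL.one u⟩

theorem sat_eq (L : ((V → A) → ℝ) →ₗ[ℝ] ℝ) (u v : V) (π : Equiv.Perm A) :
    L (sat u v π) = ∑ a, pr2 L u v a (π a) := by
  unfold pr2
  rw [← map_sum]
  congr 1
  funext x
  rw [Finset.sum_apply]
  unfold sat ind
  rw [Finset.sum_eq_single (x u)]
  · by_cases h : π (x u) = x v
    · simp [h]
    · have h' : ¬ x v = π (x u) := fun e => h e.symm
      simp [h, h']
  · intro b _ hb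
    have : ¬ x u = b := fun e => hb e.symm
    simp [this]
  · simp

theorem diag (L : ((V → A) → ℝ) →ₗ[ℝ] ℝ) (u : V) : pr2 L u u = dg (pr L u) := by
  funext a b
  unfold pr2 dg
  by_cases hab : a = b
  · subst hab
    simp only [hsq, if_true]
    rfl
  · have he : (fun x : V → A => ind u a x * ind u b x) = 0 := by
      funext x
      unfold ind
      by_cases h : x u = a
      · have : ¬ x u = b := fun e => hab (h.symm.trans e)
        simp [this]
      · simp [h]
    rw [he, map_zero, if_neg hab]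

theorem sat_le {k : ℕ} {L : ((V → A) → ℝ) →ₗ[ℝ] ℝ} (hL : Mixed k L) (u v : V)
    (π : Equiv.Perm A) : L (sat u v π) ≤ 1 := by
  rw [sat_eq]
  calc ∑ a, pr2 L u v a (π a) ≤ ∑ a, ∑ b, pr2 L u v a b := by
        apply Finset.sum_le_sum
        intro a _
        exact Finset.single_le_sum (f := fun b => pr2 L u v a b)
          (fun b _ => pr2_nonneg hL u v a b) (Finset.mem_univ (π a))
    _ = ∑ a, pr L u a := Finset.sum_congr rfl fun a _ => FB.left L u v a
    _ = 1 := FB.one L hL.one u

/-- the kernel is a Gram matrix -/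
theorem gram {k : ℕ} {L : ((V → A) → ℝ) →ₗ[ℝ] ℝ} (hL : Mixed k L) :
    ∃ (J : Type) (_ : Fintype J) (U : J → V → ℝ), ∀ u v, kr L u v = ∑ j, U j u * U j v := by
  have hpr := pr_nonneg hL
  have hsy := FB.symm L
  have key : ∀ (u v : V) (a b : A), pr2 L u v a b - pr L u a * pr L v b =
      L (fun x => (ind u a x - pr L u a) * (ind v b x - pr L v b)) := by
    intro u v a b
    have h1 : (fun x : V → A => (ind u a x - pr L u a) * (ind v b x - pr L v b)) =
        (fun x => ind u a x * ind v b x) - (pr L v b) • (ind u a) - (pr L u a) • (ind v b)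
          + (pr L u a * pr L v b) • (fun _ => (1 : ℝ)) := by
      funext x
      simp only [Pi.add_apply, Pi.sub_apply, Pi.smul_apply, smul_eq_mul]
      ring
    rw [h1, map_add, map_sub, map_sub, map_smul, map_smul, map_smul, hL.one]
    simp only [smul_eq_mul]
    change pr2 L u v a b - _ = pr2 L u v a b - pr L v b * pr L u a - pr L u a * pr L v b + _
    ring
  let c : (V × A) → (V × A) → ℝ := fun i j =>
    pr2 L i.1 j.1 i.2 j.2 - pr L i.1 i.2 * pr L j.1 j.2
  have hc : ∀ i j, c i j = L (fun x => (ind i.1 i.2 x - pr L i.1 i.2) *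
      (ind j.1 j.2 x - pr L j.1 j.2)) := fun i j => key _ _ _ _
  obtain ⟨B, hB⟩ := FV.gram c (fun i j => by
    simp only [c, hsy i.1 j.1 i.2 j.2]; ring) (fun x => by
    have h2 := hL.psd ∅ (by simp) (fun _ => 1) (fun _ _ _ => rfl) (fun _ => zero_le_one)
      (fun v b => ∑ a, x (v, a) * ((if b = a then 1 else 0) - pr L v a))
    have e2 : (fun y : V → A => (1 : ℝ) * (∑ v, ∑ a, x (v, a) * ((if y v = a then 1 else 0)
        - pr L v a)) ^ 2) =
        ∑ i : V × A, ∑ j : V × A, (x i * x j) • (fun y : V → A =>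
          (ind i.1 i.2 y - pr L i.1 i.2) * (ind j.1 j.2 y - pr L j.1 j.2)) := by
      funext y
      have e3 : ∑ v, ∑ a, x (v, a) * ((if y v = a then 1 else 0) - pr L v a) =
          ∑ i : V × A, x i * (ind i.1 i.2 y - pr L i.1 i.2) := by
        rw [Fintype.sum_prod_type]
        rfl
      simp only [Finset.sum_apply, Pi.smul_apply, smul_eq_mul]
      rw [e3, one_mul, sq, Finset.sum_mul_sum]
      refine Finset.sum_congr rfl fun i _ => Finset.sum_congr rfl fun j _ => by ring
    rw [e2] at h2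
    simp only [map_sum, map_smul, smul_eq_mul] at h2
    simpa only [hc] using h2)
  refine ⟨(V × A) × (V × A), inferInstance,
    fun kl u => ∑ a, B kl.1 (u, a) * B kl.2 (u, a) / Real.sqrt (pr L u a), fun u v => ?_⟩
  unfold kr ker
  have hsq : ∀ a b, (pr2 L u v a b - pr L u a * pr L v b) ^ 2 =
      ∑ kl : (V × A) × (V × A), (B kl.1 (u, a) * B kl.2 (u, a)) *
        (B kl.1 (v, b) * B kl.2 (v, b)) := by
    intro a b
    have h := hB (u, a) (v, b)
    simp only [c] at h
    rw [h, sq, Finset.sum_mul_sum]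
    conv_rhs => rw [Fintype.sum_prod_type]
    refine Finset.sum_congr rfl fun i _ => Finset.sum_congr rfl fun j _ => ?_
    simp only []
    ring
  have hs : ∀ a b, Real.sqrt (pr L u a * pr L v b) =
      Real.sqrt (pr L u a) * Real.sqrt (pr L v b) := fun a b => Real.sqrt_mul (hpr u a) _
  simp only [hsq, hs, Finset.sum_div]
  have e3 : ∀ kl : (V × A) × (V × A),
      (∑ a, B kl.1 (u, a) * B kl.2 (u, a) / Real.sqrt (pr L u a)) *
        (∑ a, B kl.1 (v, a) * B kl.2 (v, a) / Real.sqrt (pr L v a)) =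
      ∑ a, ∑ b, (B kl.1 (u, a) * B kl.2 (u, a)) *
        (B kl.1 (v, b) * B kl.2 (v, b)) / (Real.sqrt (pr L u a) * Real.sqrt (pr L v b)) := by
    intro kl
    rw [Finset.sum_mul_sum]
    refine Finset.sum_congr rfl fun a _ => Finset.sum_congr rfl fun b _ => ?_
    rw [div_mul_div_comm]
  simp only [e3]
  rw [Finset.sum_comm]
  rw [Finset.sum_comm]
  conv_rhs => rw [Finset.sum_comm]
  refine Finset.sum_congr rfl fun a _ => ?_
  rw [Finset.sum_comm]

/-- decrease of the variance by conditioning -/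
theorem fd {k : ℕ} {L : ((V → A) → ℝ) →ₗ[ℝ] ℝ} (hL : Mixed k L) (u v : V) :
    dec L u v = vr L v - ∑ a, pr L u a * vr (cnd L u a) v := by
  have h := law hL u v
  set p : A → ℝ := pr L u with hp
  set q : A → ℝ := pr L v with hq
  set r : A → A → ℝ := pr2 L u v with hr
  have hc : ∀ a b, pr (cnd L u a) v b = r a b / p a := fun a b => rfl
  have hr0 : ∀ a, p a = 0 → ∀ b, r a b = 0 := by
    intro a ha b
    have h1 : r a b ≤ ∑ b, r a b :=
      single_le_sum (f := fun b => r a b) (fun b _ => h.nonneg a b) (mem_univ b)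
    rw [h.left a, ha] at h1
    exact le_antisymm h1 (h.nonneg a b)
  have e1 : ∀ a b, (r a b - p a * q b) ^ 2 / p a = r a b ^ 2 / p a - 2 * (r a b * q b) +
      p a * q b ^ 2 := by
    intro a b
    by_cases ha : p a = 0
    · rw [hr0 a ha b, ha]; simp
    · field_simp
      ring
  have e2 : ∀ a, p a * vr (cnd L u a) v = p a - ∑ b, r a b ^ 2 / p a := by
    intro a
    unfold vr
    simp only [hc]
    rw [mul_sub, mul_one, mul_sum]
    congr 1
    apply sum_congr rfl
    intro b _
    by_cases ha : p a = 0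
    · rw [ha]; simp
    · field_simp
  have e3 : dec L u v = (∑ a, ∑ b, r a b ^ 2 / p a) - ∑ b, q b ^ 2 := by
    unfold dec
    change ∑ a, ∑ b, (r a b - p a * q b) ^ 2 / p a = _
    simp only [e1, sum_add_distrib, sum_sub_distrib]
    have f1 : ∑ a, ∑ b, 2 * (r a b * q b) = 2 * ∑ b, q b ^ 2 := by
      rw [sum_comm, mul_sum]
      apply sum_congr rfl
      intro b _
      rw [← mul_sum, ← sum_mul, h.right b]
      ring
    have f2 : ∑ a, ∑ b, p a * q b ^ 2 = ∑ b, q b ^ 2 := by
      simp only [← mul_sum]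
      rw [← sum_mul, h.one, one_mul]
    rw [f1, f2]
    ring
  have e4 : ∑ a, pr L u a * vr (cnd L u a) v = 1 - ∑ a, ∑ b, r a b ^ 2 / p a := by
    change ∑ a, p a * vr (cnd L u a) v = _
    simp only [e2, sum_sub_distrib]
    rw [h.one]
  rw [e3, e4]
  unfold vr
  change _ = 1 - ∑ b, q b ^ 2 - _
  ring

theorem fct {k : ℕ} {L : ((V → A) → ℝ) →ₗ[ℝ] ℝ} (hL : Mixed k L) : Fct L :=
  ⟨law hL, pr_nonneg hL, FB.symm L, diag L, sat_eq L, sat_le hL, gram hL, fd hL⟩

theorem step {k : ℕ} {L : ((V → A) → ℝ) →ₗ[ℝ] ℝ} (hL : Mixed (k + 1) L) (u : V) (a : A)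
    (ha : 0 < pr L u a) : Mixed k (cnd L u a) := by
  refine ⟨?_, fun S hS f hf hf0 => ?_, fun S hS g hg hg0 c => ?_⟩
  · show L (fun x => ind u a x * 1) / pr L u a = 1
    simp only [mul_one]
    exact div_self ha.ne'
  · show 0 ≤ L (fun x => ind u a x * f x) / pr L u a
    refine div_nonneg (hL.junta (insert u S) ?_ _ (dep_mul (dep_ind u a _ (mem_insert_self _ _))
      (dep_mono hf (subset_insert _ _))) fun x => mul_nonneg (ind_nonneg u a x) (hf0 x)) ha.le
    exact (card_insert_le _ _).trans (by omega)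
  · show 0 ≤ L (fun x => ind u a x * (g x * (∑ v, c v (x v)) ^ 2)) / pr L u a
    have h1 := hL.psd (insert u S) ((card_insert_le _ _).trans (by omega))
      (fun x => ind u a x * g x) (dep_mul (dep_ind u a _ (mem_insert_self _ _))
      (dep_mono hg (subset_insert _ _))) (fun x => mul_nonneg (ind_nonneg u a x) (hg0 x)) c
    simp only [mul_assoc] at h1
    exact div_nonneg h1 ha.le

theorem mono {k : ℕ} {L : ((V → A) → ℝ) →ₗ[ℝ] ℝ} (hL : Mixed (k + 1) L) : Mixed k L :=
  ⟨hL.one, fun S hS => hL.junta S (by omega), fun S hS => hL.psd S (by omega)⟩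

theorem avg {k : ℕ} {L : ((V → A) → ℝ) →ₗ[ℝ] ℝ} (hL : Mixed (k + 1) L) (u v w : V)
    (π : Equiv.Perm A) : ∑ a, pr L u a * cnd L u a (sat v w π) = L (sat v w π) := by
  have h1 : ∀ a, pr L u a * cnd L u a (sat v w π) = L (fun x => ind u a x * sat v w π x) := by
    intro a
    show pr L u a * (L (fun x => ind u a x * sat v w π x) / pr L u a) = _
    by_cases ha : pr L u a = 0
    · rw [ha, zero_mul]
      have hS : ({u, v, w} : Finset V).card ≤ k + 1 + 2 := card_le_three.trans (by omega)
      have h2 : 0 ≤ L (fun x => ind u a x * sat v w π x) :=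
        hL.junta {u, v, w} hS _ (dep_mul (dep_ind u a _ (by simp))
          (dep_sat v w π _ (by simp) (by simp))) fun x =>
          mul_nonneg (ind_nonneg u a x) (sat_nonneg v w π x)
      have h3 : 0 ≤ L (fun x => ind u a x - ind u a x * sat v w π x) := by
        refine hL.junta {u, v, w} hS _ ?_ fun x => ?_
        · intro x y h
          have d1 := dep_mul (dep_ind u a {u, v, w} (by simp))
            (dep_sat v w π {u, v, w} (by simp) (by simp)) x y h
          have d2 := dep_ind u a {u, v, w} (by simp) x y h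
          show ind u a x - ind u a x * sat v w π x = ind u a y - ind u a y * sat v w π y
          simp only at d1
          rw [d1, d2]
        · have := mul_le_mul_of_nonneg_left (sat_le_one v w π x) (ind_nonneg u a x)
          linarith
      have h4 : (fun x : V → A => ind u a x - ind u a x * sat v w π x) =
          ind u a - fun x => ind u a x * sat v w π x := rfl
      rw [h4, map_sub] at h3
      have h5 : L (ind u a) = 0 := ha
      linarith
    · rw [mul_div_cancel₀ _ ha]
  simp only [h1]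
  rw [← map_sum]
  congr 1
  funext x
  rw [Finset.sum_apply, ← Finset.sum_mul, FB.sum_ind, one_mul]

end Mx

/-- the mixed hierarchy is closed under conditioning -/
theorem hier_mixed (V A : Type) [Fintype V] [DecidableEq V] [Fintype A] [DecidableEq A] :
    Hier (V := V) (A := A) (fun k L => Mixed k L) where
  fct _ _ hL := Mx.fct hL
  step _ _ hL u a ha := Mx.step hL u a ha
  mono _ _ hL := Mx.mono hL
  avg _ _ hL u v w π := Mx.avg hL u v w π

end Pool.Agent.TH522.UG
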