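import Pool.Agent.TH522.UG.Soft

/-!
Achievable losses of a mass function: soft families of labellings; the final rounding.
-/

namespace Pool.Agent.TH522.UG

open Finset Pool.Agent.H647R3.UG Pool.Agent.H573R3.SL

/-- the mass function `P` can be split into finitely many labelled parts with total loss `≤ x` -/
def Ach {V A E : Type} [Fintype E] [DecidableEq A] (s t : E → V)
    (π : E → Equiv.Perm A) (P : V → ℝ) (x : ℝ) : Prop :=
  ∃ (K : Type) (_ : Fintype K) (p : K → V → ℝ) (lab : K → V → A), (∀ k v, 0 ≤ p k v) ∧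
    (∀ v, ∑ k, p k v = P v) ∧
    (∑ e, min (P (s e)) (P (t e))) - ∑ k, ∑ e, min (p k (s e)) (p k (t e)) *
      (if π e (lab k (s e)) = lab k (t e) then 1 else 0) ≤ x

variable {V A E : Type} [Fintype E] [DecidableEq A] {s t : E → V} {π : E → Equiv.Perm A}

theorem Ach.mono {P : V → ℝ} {x y : ℝ} (h : Ach s t π P x) (hxy : x ≤ y) : Ach s t π P y := by
  obtain ⟨K, iK, p, lab, h1, h2, h3⟩ := h
  exact ⟨K, iK, p, lab, h1, h2, h3.trans hxy⟩

theorem Ach.congr {P P' : V → ℝ} {x : ℝ} (h : Ach s t π P x) (hP : ∀ v, P v = P' v) :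
    Ach s t π P' x := by
  have : P = P' := funext hP
  rwa [← this]

/-- a single labelled part -/
theorem ach_leaf (P : V → ℝ) (hP : ∀ v, 0 ≤ P v) (x : V → A) :
    Ach s t π P (∑ e, min (P (s e)) (P (t e)) * (if π e (x (s e)) = x (t e) then 0 else 1)) := by
  refine ⟨Unit, inferInstance, fun _ => P, fun _ => x, fun _ v => hP v, fun v => by simp, ?_⟩
  simp only [univ_unique, sum_singleton]
  rw [← sum_sub_distrib]
  refine sum_le_sum fun e _ => ?_
  split_ifs <;> simp

/-- the trivial bound -/
theorem ach_triv (P : V → ℝ) (hP : ∀ v, 0 ≤ P v) (x : V → A) :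
    Ach s t π P (∑ e, min (P (s e)) (P (t e))) := by
  refine (ach_leaf P hP x).mono (sum_le_sum fun e _ => ?_)
  have h1 : 0 ≤ min (P (s e)) (P (t e)) := le_min (hP _) (hP _)
  split_ifs <;> simp [h1]

/-- splitting -/
theorem ach_split {J : Type} [Fintype J] (P : V → ℝ) (Pj : J → V → ℝ) (xj : J → ℝ)
    (hP : ∀ v, ∑ j, Pj j v = P v) (h : ∀ j, Ach s t π (Pj j) (xj j)) :
    Ach s t π P (∑ e, (min (P (s e)) (P (t e)) - ∑ j, min (Pj j (s e)) (Pj j (t e)))
      + ∑ j, xj j) := by
  choose K iK p lab h1 h2 h3 using h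
  refine ⟨(Σ j, K j), inferInstance, fun k => p k.1 k.2, fun k => lab k.1 k.2,
    fun k v => h1 k.1 k.2 v, fun v => ?_, ?_⟩
  · rw [Fintype.sum_sigma, ← hP v]
    exact sum_congr rfl fun j _ => h2 j v
  · rw [Fintype.sum_sigma, sum_sub_distrib]
    have h4 : ∑ j, (∑ e, min (Pj j (s e)) (Pj j (t e)) - ∑ k, ∑ e, min (p j k (s e)) (p j k (t e)) *
      (if π e (lab j k (s e)) = lab j k (t e) then 1 else 0)) ≤ ∑ j, xj j :=
      sum_le_sum fun j _ => h3 j
    rw [sum_sub_distrib, sum_comm (f := fun j e => min (Pj j (s e)) (Pj j (t e)))] at h4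
    linarith

/-- cost of a soft cut on one edge -/
theorem cut_edge (P Q a b : ℝ) (hP : 0 ≤ P) (hQ : 0 ≤ Q) :
    min P Q - (min (P * a) (Q * b) + min (P * (1 - a)) (Q * (1 - b))) ≤ min P Q * |a - b| +
      (if 0 ≤ a ∧ a ≤ 1 ∧ 0 ≤ b ∧ b ≤ 1 then 0 else
        |min P Q - (min (P * a) (Q * b) + min (P * (1 - a)) (Q * (1 - b)))|) := by
  split_ifs with h
  · obtain ⟨a0, a1, b0, b1⟩ := h
    rw [add_zero]
    have key : ∀ m, 0 ≤ m → m ≤ P → m ≤ Q →
        m - (min (P * a) (Q * b) + min (P * (1 - a)) (Q * (1 - b))) ≤ m * |a - b| := by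
      intro m hm hmP hmQ
      have h1 : m * min a b ≤ min (P * a) (Q * b) := by
        refine le_min ?_ ?_
        · exact (mul_le_mul_of_nonneg_left (min_le_left _ _) hm).trans
            (mul_le_mul_of_nonneg_right hmP a0)
        · exact (mul_le_mul_of_nonneg_left (min_le_right _ _) hm).trans
            (mul_le_mul_of_nonneg_right hmQ b0)
      have h2 : m * min (1 - a) (1 - b) ≤ min (P * (1 - a)) (Q * (1 - b)) := by
        refine le_min ?_ ?_
        · exact (mul_le_mul_of_nonneg_left (min_le_left _ _) hm).trans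
            (mul_le_mul_of_nonneg_right hmP (by linarith))
        · exact (mul_le_mul_of_nonneg_left (min_le_right _ _) hm).trans
            (mul_le_mul_of_nonneg_right hmQ (by linarith))
      have h3 : m * min a b + m * min (1 - a) (1 - b) = m - m * |a - b| := by
        rcases le_total a b with h | h
        · rw [min_eq_left h, min_eq_right (by linarith), abs_of_nonpos (by linarith)]; ring
        · rw [min_eq_right h, min_eq_left (by linarith), abs_of_nonneg (by linarith)]; ring
      linarith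
    exact key _ (le_min hP hQ) (min_le_left _ _) (min_le_right _ _)
  · have h1 := le_abs_self (min P Q - (min (P * a) (Q * b) + min (P * (1 - a)) (Q * (1 - b))))
    have h2 : 0 ≤ min P Q * |a - b| := mul_nonneg (le_min hP hQ) (abs_nonneg _)
    linarith

/-- soft cut with a function `φ` -/
theorem ach_cut (P φ : V → ℝ) (hP : ∀ v, 0 ≤ P v) (h0 : ∀ v, 0 ≤ φ v) (h1 : ∀ v, φ v ≤ 1)
    (x y : ℝ) (hx : Ach s t π (fun v => P v * φ v) x) (hy : Ach s t π (fun v => P v * (1 - φ v)) y) :
    Ach s t π P ((∑ e, min (P (s e)) (P (t e)) * |φ (s e) - φ (t e)|) + (x + y)) := by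
  have h := ach_split (s := s) (t := t) (π := π) (J := Bool) P
    (fun j v => if j = true then P v * φ v else P v * (1 - φ v)) (fun j => if j = true then x else y)
    (fun v => by simp only [Fintype.sum_bool]; simp; ring)
    (fun j => by
      cases j
      · simpa using hy
      · simpa using hx)
  refine h.mono ?_
  simp only [Fintype.sum_bool, if_true, Bool.false_eq_true, if_false]
  refine add_le_add ?_ le_rfl
  refine sum_le_sum fun e _ => ?_
  have h2 := cut_edge (P (s e)) (P (t e)) (φ (s e)) (φ (t e)) (hP _) (hP _)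
  rw [if_pos ⟨h0 _, h1 _, h0 _, h1 _⟩, add_zero] at h2
  exact h2

/-- the final rounding -/
theorem ach_round [Fintype V] [DecidableEq V] (x : ℝ) (h : Ach s t π (fun _ => 1) x) :
    ∃ c : V → A, (Fintype.card E : ℝ) - 2 * x ≤
      ((univ.filter fun e => π e (c (s e)) = c (t e)).card : ℝ) := by
  classical
  obtain ⟨K, iK, p, lab, h1, h2, h3⟩ := h
  obtain ⟨c, hc⟩ := T_CS V E K s t p (fun k e => if π e (lab k (s e)) = lab k (t e) then 0 else 1)
    h1 h2 (fun k e => by split_ifs <;> norm_num)
  refine ⟨fun v => lab (c v) v, ?_⟩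
  have h4 : ∀ e, (∑ i, |p i (s e) - p i (t e)|) + ∑ i, min (p i (s e)) (p i (t e)) *
      (if π e (lab i (s e)) = lab i (t e) then (0 : ℝ) else 1) ≤
      2 * (1 - ∑ i, min (p i (s e)) (p i (t e)) *
      (if π e (lab i (s e)) = lab i (t e) then (1 : ℝ) else 0)) := by
    intro e
    have e1 : ∑ i, |p i (s e) - p i (t e)| = 2 - 2 * ∑ i, min (p i (s e)) (p i (t e)) := by
      have e2 : ∀ i, |p i (s e) - p i (t e)| =
          p i (s e) + p i (t e) - 2 * min (p i (s e)) (p i (t e)) := by
        intro i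
        rcases le_total (p i (s e)) (p i (t e)) with h | h
        · rw [min_eq_left h, abs_of_nonpos (by linarith)]; ring
        · rw [min_eq_right h, abs_of_nonneg (by linarith)]; ring
      rw [sum_congr rfl fun i _ => e2 i, sum_sub_distrib, sum_add_distrib, h2, h2, ← mul_sum]
      norm_num
    have e3 : ∑ i, min (p i (s e)) (p i (t e)) *
      (if π e (lab i (s e)) = lab i (t e) then (0 : ℝ) else 1) =
      (∑ i, min (p i (s e)) (p i (t e))) - ∑ i, min (p i (s e)) (p i (t e)) *
      (if π e (lab i (s e)) = lab i (t e) then (1 : ℝ) else 0) := by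
      rw [← sum_sub_distrib]
      refine sum_congr rfl fun i _ => ?_
      split_ifs <;> ring
    have e4 : 0 ≤ ∑ i, min (p i (s e)) (p i (t e)) *
      (if π e (lab i (s e)) = lab i (t e) then (0 : ℝ) else 1) :=
      sum_nonneg fun i _ => mul_nonneg (le_min (h1 _ _) (h1 _ _)) (by split_ifs <;> norm_num)
    rw [e1, e3]
    rw [e3] at e4
    linarith
  have h5 : ∑ e, (if π e (lab (c (s e)) (s e)) = lab (c (t e)) (t e) then (0 : ℝ) else 1) ≤
      2 * x := by
    calc ∑ e, (if π e (lab (c (s e)) (s e)) = lab (c (t e)) (t e) then (0 : ℝ) else 1)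
        ≤ ∑ e, (if c (s e) = c (t e) then
            (if π e (lab (c (s e)) (s e)) = lab (c (s e)) (t e) then (0 : ℝ) else 1) else 1) := by
          refine sum_le_sum fun e _ => ?_
          by_cases hce : c (s e) = c (t e)
          · rw [if_pos hce, hce]
          · rw [if_neg hce]
            split_ifs <;> norm_num
      _ ≤ ∑ e, 2 * (1 - ∑ i, min (p i (s e)) (p i (t e)) *
          (if π e (lab i (s e)) = lab i (t e) then (1 : ℝ) else 0)) :=
          hc.trans (sum_le_sum fun e _ => h4 e)
      _ ≤ 2 * x := by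
          rw [← mul_sum, sum_sub_distrib]
          rw [sum_comm] at h3
          simp only [min_self] at h3
          linarith
  have h6 : ((univ.filter fun e => π e (lab (c (s e)) (s e)) = lab (c (t e)) (t e)).card : ℝ) =
      (Fintype.card E : ℝ) -
        ∑ e, (if π e (lab (c (s e)) (s e)) = lab (c (t e)) (t e) then (0 : ℝ) else 1) := by
    rw [card_eq_sum_ones, Nat.cast_sum, sum_filter]
    have : (Fintype.card E : ℝ) = ∑ _e : E, (1 : ℝ) := by simp
    rw [this, ← sum_sub_distrib]
    refine sum_congr rfl fun e _ => ?_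
    split_ifs <;> simp
  rw [h6]
  linarith

end Pool.Agent.TH522.UG
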