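import Pool.Agent.H573R3.SL.All

/-!
Global correlation of vector fields of small energy, with a free exponent `q` (the number of steps
of the walk is tuned to the exponent and not to the energy).
-/

namespace Pool.Agent.TH522.UG

open Finset Pool.Agent.H647R3.UG Pool.Agent.H573R3.SL

/-- The number of steps. -/
theorem numbers (l τ q s0 : ℝ) (hl : 0 < l) (hτ : 0 < τ) (hτ1 : τ ≤ 1) (hq : 0 < q) (hq1 : q ≤ 1) (h0 : 0 < s0) (h1 : s0 ≤ 1)
    (hsl : s0 * l ≤ 1) (T : ℕ) (hT : T = ⌈4 / (s0 * l) * Real.log (1 / q)⌉₊) :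
    (1 - s0 * l / 4) ^ T ≤ q ∧
      1 / 4 * Real.exp (-(8 * τ / l * Real.log (1 / q))) ≤ ((1 - s0 * τ / 2) ^ T) ^ 2 := by
  have hL : 0 ≤ Real.log (1 / q) := Real.log_nonneg (by rw [le_div_iff₀ hq]; linarith)
  have hsl0 : 0 < s0 * l := mul_pos h0 hl
  have hA : 0 ≤ 4 / (s0 * l) * Real.log (1 / q) := by positivity
  have h2 : 4 / (s0 * l) * Real.log (1 / q) ≤ T := by rw [hT]; exact Nat.le_ceil _
  have h3 : (T : ℝ) < 4 / (s0 * l) * Real.log (1 / q) + 1 := by
    rw [hT]; exact Nat.ceil_lt_add_one hA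
  constructor
  · have a1 : 1 - s0 * l / 4 ≤ Real.exp (-(s0 * l / 4)) := by
      have := Real.add_one_le_exp (-(s0 * l / 4))
      linarith
    calc (1 - s0 * l / 4) ^ T ≤ Real.exp (-(s0 * l / 4)) ^ T :=
          pow_le_pow_left₀ (by linarith) a1 T
      _ = Real.exp (T * -(s0 * l / 4)) := by rw [← Real.exp_nat_mul]
      _ ≤ Real.exp (-Real.log (1 / q)) := by
          apply Real.exp_le_exp.2
          have a2 : Real.log (1 / q) = (4 / (s0 * l) * Real.log (1 / q)) * (s0 * l / 4) := by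
            field_simp
          have a3 : (4 / (s0 * l) * Real.log (1 / q)) * (s0 * l / 4) ≤ T * (s0 * l / 4) :=
            mul_le_mul_of_nonneg_right h2 (by positivity)
          linarith
      _ = q := by
          rw [← Real.log_inv, one_div, inv_inv, Real.exp_log hq]
  · have hst : 0 ≤ s0 * τ := by positivity
    have hst1 : s0 * τ ≤ 1 := by nlinarith
    have h5 := GC.exp_le (s0 * τ) hst hst1
    have h6 : Real.exp (-(s0 * τ * Real.log 2)) ^ (T * 2) ≤ (1 - s0 * τ / 2) ^ (T * 2) :=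
      pow_le_pow_left₀ (Real.exp_pos _).le h5 _
    rw [← pow_mul]
    refine le_trans ?_ h6
    rw [← Real.exp_nat_mul]
    have hl2 : Real.log 2 ≤ 1 := by
      have := Real.log_two_lt_d9; linarith
    have hl0 : 0 ≤ Real.log 2 := Real.log_nonneg (by norm_num)
    have hq4 : Real.exp (-(2 * Real.log 2)) = 1 / 4 := by
      rw [Real.exp_neg, show 2 * Real.log 2 = Real.log 2 + Real.log 2 by ring, Real.exp_add,
        Real.exp_log (by norm_num : (0 : ℝ) < 2)]
      norm_num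
    have hx0 : 0 ≤ 8 * τ / l * Real.log (1 / q) := by positivity
    have h7 : -(2 * Real.log 2) + -(8 * τ / l * Real.log (1 / q)) ≤
        ((T * 2 : ℕ) : ℝ) * -(s0 * τ * Real.log 2) := by
      push_cast
      have b1 : (T : ℝ) * (s0 * τ) ≤ 4 * τ / l * Real.log (1 / q) + 1 := by
        calc (T : ℝ) * (s0 * τ) ≤ (4 / (s0 * l) * Real.log (1 / q) + 1) * (s0 * τ) :=
              mul_le_mul_of_nonneg_right h3.le hst
          _ = 4 * τ / l * Real.log (1 / q) + s0 * τ := by field_simp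
          _ ≤ _ := by linarith
      have b2 : (T * (s0 * τ)) * (2 * Real.log 2) ≤
          (4 * τ / l * Real.log (1 / q) + 1) * (2 * Real.log 2) :=
        mul_le_mul_of_nonneg_right b1 (by positivity)
      have b3 : (8 * τ / l * Real.log (1 / q)) * Real.log 2 ≤ (8 * τ / l * Real.log (1 / q)) * 1 :=
        mul_le_mul_of_nonneg_left hl2 hx0
      have b4 : (4 * τ / l * Real.log (1 / q) + 1) * (2 * Real.log 2) =
          (8 * τ / l * Real.log (1 / q)) * Real.log 2 + 2 * Real.log 2 := by ring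
      nlinarith
    calc 1 / 4 * Real.exp (-(8 * τ / l * Real.log (1 / q)))
        = Real.exp (-(2 * Real.log 2) + -(8 * τ / l * Real.log (1 / q))) := by
          rw [Real.exp_add, hq4]
      _ ≤ _ := Real.exp_le_exp.2 h7



theorem gcl (hOP : St_OP) (hHDL : St_HDL) (hLC : St_LC) (hSQ : St_SQ) (W J : Type) [Fintype W]
    [DecidableEq W] [Fintype J] (w : W → W → ℝ) (m : W → ℝ)
    (U : J → W → ℝ) (l τ q : ℝ) (hw : ∀ u v, 0 ≤ w u v) (hsym : ∀ u v, w u v = w v u)
    (hm : ∀ u, 0 < m u) (hl : 0 < l) (hLS : LSob w m l) (hτ : 0 < τ) (hτ1 : τ ≤ 1)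
    (hq : 0 < q) (hq1 : q ≤ 1)
    (ha : 0 < ∑ j, ip m (U j) (U j)) (hen : ∑ j, en w (U j) ≤ τ * ∑ j, ip m (U j) (U j)) :
    (∑ j, ip m (U j) (U j)) ^ 2 / 16 * (Real.exp (-(8 * τ / l * Real.log (1 / q)))
        * (Fintype.card W : ℝ) ^ (-q))
      ≤ ∑ u, ∑ v, m u * m v * (∑ j, U j u * U j v) ^ 2 := by
  classical
  set a : ℝ := ∑ j, ip m (U j) (U j) with had
  obtain ⟨s0, h0, h1, hsl, hdeg⟩ := GCL.exists_scale w m l hw hm hl
  set w' : W → W → ℝ := fun u v => s0 * w u v with hw'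
  have hnet : IsNet w' m := by
    refine ⟨fun u v => mul_nonneg h0.le (hw u v), fun u v => ?_, hm, fun u => ?_⟩
    · simp only [hw']; rw [hsym u v]
    · simp only [hw']
      rw [← mul_sum]
      exact hdeg u
  have hLS' : LSob w' m (s0 * l) := by
    intro h hh
    rw [hw', GCL.en_scale, mul_assoc]
    exact mul_le_mul_of_nonneg_left (hLS h hh) h0.le
  have hen' : ∑ j, en w' (U j) ≤ (s0 * τ) * ∑ j, ip m (U j) (U j) := by
    rw [hw']
    simp only [GCL.en_scale]
    rw [← mul_sum, mul_assoc]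
    exact mul_le_mul_of_nonneg_left hen h0.le
  have hst0 : 0 ≤ s0 * τ := by positivity
  have hst1 : s0 * τ ≤ 1 := by nlinarith
  obtain ⟨T, hT⟩ : ∃ T : ℕ, T = ⌈4 / (s0 * l) * Real.log (1 / q)⌉₊ := ⟨_, rfl⟩
  obtain ⟨hn1, hn2⟩ := numbers l τ q s0 hl hτ hτ1 hq hq1 h0 h1 hsl T hT
  have hsl0 : 0 < s0 * l := mul_pos h0 hl
  set δ : ℝ := (1 - s0 * l / 4) ^ T with hδ
  have hδ0 : 0 ≤ δ := pow_nonneg (by linarith) _
  have hδ1 : δ ≤ 1 := hn1.trans hq1
  have hne : Nonempty W := by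
    by_contra hcon
    rw [not_nonempty_iff] at hcon
    have : a = 0 := by
      rw [had]
      apply sum_eq_zero
      intro j _
      unfold ip
      exact Finset.sum_of_isEmpty _
    rw [this] at ha
    exact lt_irrefl _ ha
  have hM : 0 < vol m univ := sum_pos (fun u _ => hnet.pos u) univ_nonempty
  set H : W → W → ℝ := fun u v => ((lz w' m)^[T] (dl m v)) u with hH
  set Gm : W → W → ℝ := fun u v => ∑ j, U j u * U j v with hG
  -- LC
  have l1 : a * (1 - s0 * τ / 2) ^ T ≤ ∑ u, ∑ v, m u * m v * H u v * Gm u v := by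
    refine (hLC W J w' m U (s0 * τ) hnet hst0 hst1 hen' T).trans (le_of_eq ?_)
    unfold ip
    simp only [GC.it_kernel hOP w' m hnet (U _) T]
    rw [sum_comm]
    apply sum_congr rfl
    intro u _
    simp only [mul_sum, hG]
    rw [sum_comm]
    apply sum_congr rfl
    intro v _
    apply sum_congr rfl
    intro j _
    simp only [hH]
    ring
  have hc0 : 0 ≤ a * (1 - s0 * τ / 2) ^ T := mul_nonneg ha.le (pow_nonneg (by linarith) _)
  -- Cauchy-Schwarz
  have l2 : (∑ u, ∑ v, m u * m v * H u v * Gm u v) ^ 2 ≤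
      (∑ u, ∑ v, m u * m v * H u v ^ 2) * ∑ u, ∑ v, m u * m v * Gm u v ^ 2 := by
    have h := Finset.sum_sq_le_sum_mul_sum_of_sq_le_mul ((univ : Finset W) ×ˢ (univ : Finset W))
      (r := fun p => m p.1 * m p.2 * H p.1 p.2 * Gm p.1 p.2)
      (f := fun p => m p.1 * m p.2 * H p.1 p.2 ^ 2) (g := fun p => m p.1 * m p.2 * Gm p.1 p.2 ^ 2)
      (fun p _ => mul_nonneg (mul_nonneg (hnet.pos _).le (hnet.pos _).le) (sq_nonneg _))
      (fun p _ => mul_nonneg (mul_nonneg (hnet.pos _).le (hnet.pos _).le) (sq_nonneg _))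
      (fun p _ => le_of_eq (by ring))
    rwa [sum_product, sum_product, sum_product] at h
  have hn : (1 : ℝ) ≤ (Fintype.card W : ℝ) := by
    exact_mod_cast Fintype.card_pos
  have l3 : ∑ u, ∑ v, m u * m v * H u v ^ 2 ≤ 4 * (Fintype.card W : ℝ) ^ q := by
    rw [sum_comm]
    have h1 : ∀ v ∈ (univ : Finset W), ∑ u, m u * m v * H u v ^ 2 ≤
        m v * (4 / vol m univ * (vol m univ / m v) ^ δ) := by
      intro v _
      have e : ∑ u, m u * m v * H u v ^ 2 = m v * ip m ((lz w' m)^[T] (dl m v))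
          ((lz w' m)^[T] (dl m v)) := by
        unfold ip
        rw [mul_sum]
        apply sum_congr rfl
        intro u _
        simp only [hH]
        ring
      rw [e]
      exact mul_le_mul_of_nonneg_left (hHDL W w' m (s0 * l) hnet hsl0 hsl hLS' v T)
        (hnet.pos v).le
    refine (sum_le_sum h1).trans ((hSQ W m δ hm hδ0 hδ1).trans ?_)
    exact mul_le_mul_of_nonneg_left (Real.rpow_le_rpow_of_exponent_le hn hn1) (by norm_num)
  set Q : ℝ := ∑ u, ∑ v, m u * m v * Gm u v ^ 2 with hQ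
  have hQ0 : 0 ≤ Q := sum_nonneg fun u _ => sum_nonneg fun v _ =>
    mul_nonneg (mul_nonneg (hnet.pos _).le (hnet.pos _).le) (sq_nonneg _)
  have l4 : (a * (1 - s0 * τ / 2) ^ T) ^ 2 ≤ 4 * (Fintype.card W : ℝ) ^ q * Q :=
    (pow_le_pow_left₀ hc0 l1 2).trans (l2.trans (mul_le_mul_of_nonneg_right l3 hQ0))
  have l5 : a ^ 2 * (1 / 4 * Real.exp (-(8 * τ / l * Real.log (1 / q)))) ≤
      4 * (Fintype.card W : ℝ) ^ q * Q := by
    refine le_trans ?_ l4
    rw [mul_pow]
    exact mul_le_mul_of_nonneg_left hn2 (sq_nonneg _)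
  have hp : 0 < (Fintype.card W : ℝ) ^ q := Real.rpow_pos_of_pos (by linarith) _
  have hpn : (Fintype.card W : ℝ) ^ (-q) * (Fintype.card W : ℝ) ^ q = 1 := by
    rw [← Real.rpow_add (by linarith), neg_add_cancel, Real.rpow_zero]
  refine le_of_mul_le_mul_right ?_ hp
  calc a ^ 2 / 16 * (Real.exp (-(8 * τ / l * Real.log (1 / q))) * (Fintype.card W : ℝ) ^ (-q)) *
        (Fintype.card W : ℝ) ^ q
      = a ^ 2 / 16 * Real.exp (-(8 * τ / l * Real.log (1 / q))) *
        ((Fintype.card W : ℝ) ^ (-q) * (Fintype.card W : ℝ) ^ q) := by ring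
    _ = (a ^ 2 * (1 / 4 * Real.exp (-(8 * τ / l * Real.log (1 / q))))) / 4 := by
        rw [hpn]; ring
    _ ≤ (4 * (Fintype.card W : ℝ) ^ q * Q) / 4 := by linarith
    _ = Q * (Fintype.card W : ℝ) ^ q := by ring


open Pool.Agent.H573R3.SL.GCFL in
theorem gcfl (hOP : St_OP) (hHDL : St_HDL) (hLC : St_LC) (hSQ : St_SQ) (V J : Type) [Fintype V]
    [DecidableEq V] [Fintype J] (w : V → V → ℝ) (m : V → ℝ)
    (U : J → V → ℝ) (l τ q : ℝ) (hw : ∀ u v, 0 ≤ w u v) (hsym : ∀ u v, w u v = w v u)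
    (hm : ∀ u, 0 ≤ m u) (h0 : ∀ u, m u = 0 → ∀ v, w u v = 0)
    (hl : 0 < l) (hL : LSob w m l) (hτ : 0 < τ) (hτ1 : τ ≤ 1) (hq : 0 < q) (hq1 : q ≤ 1)
    (hpos : 0 < ∑ j, ip m (U j) (U j)) (hen : ∑ j, en w (U j) ≤ τ * ∑ j, ip m (U j) (U j)) :
    (∑ j, ip m (U j) (U j)) ^ 2 / 16 * (Real.exp (-(8 * τ / l * Real.log (1 / q)))
        * (Fintype.card V : ℝ) ^ (-q))
      ≤ ∑ u, ∑ v, m u * m v * (∑ j, U j u * U j v) ^ 2 := by
  classical
  have e1 : ∀ j, ip m (U j) (U j) =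
      ip (fun u : {v // 0 < m v} => m u.1) (fun u => U j u.1) (fun u => U j u.1) :=
    fun j => ip_red m hm _ _
  have e2 : ∀ j, en w (U j) = en (fun u v : {v // 0 < m v} => w u.1 v.1) (fun u => U j u.1) :=
    fun j => en_red w m hm hsym h0 _
  have e3 : ∑ u, ∑ v, m u * m v * (∑ j, U j u * U j v) ^ 2 =
      ∑ u : {v // 0 < m v}, ∑ v : {v // 0 < m v}, m u.1 * m v.1 * (∑ j, U j u.1 * U j v.1) ^ 2 :=
    red2 m hm (fun u v => m u * m v * (∑ j, U j u * U j v) ^ 2) (fun u v hu => by simp [hu])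
      (fun u v hv => by simp [hv])
  have hne : Nonempty {v // 0 < m v} := by
    by_contra hemp
    rw [not_nonempty_iff] at hemp
    have : ∑ j, ip m (U j) (U j) = 0 := by
      refine Finset.sum_eq_zero fun j _ => ?_
      rw [e1 j]
      unfold ip
      exact Fintype.sum_empty _
    linarith
  have hcard : (1:ℝ) ≤ (Fintype.card {v // 0 < m v} : ℝ) := by
    exact_mod_cast Fintype.card_pos
  have hcard2 : (Fintype.card {v // 0 < m v} : ℝ) ≤ (Fintype.card V : ℝ) := by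
    exact_mod_cast Fintype.card_subtype_le _
  have h := gcl hOP hHDL hLC hSQ {v // 0 < m v} J (fun u v => w u.1 v.1) (fun u => m u.1)
    (fun j u => U j u.1) l τ q
    (fun u v => hw _ _) (fun u v => hsym _ _) (fun u => u.2) hl (LSob_red w m hm hsym h0 l hL) hτ hτ1 hq hq1
    (by rw [← Finset.sum_congr rfl fun j _ => e1 j]; exact hpos)
    (by rw [← Finset.sum_congr rfl fun j _ => e1 j, ← Finset.sum_congr rfl fun j _ => e2 j]; exact hen)
  rw [← Finset.sum_congr rfl fun j _ => e1 j] at h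
  rw [e3]
  refine le_trans ?_ h
  refine mul_le_mul_of_nonneg_left ?_ (by positivity)
  refine mul_le_mul_of_nonneg_left ?_ (Real.exp_pos _).le
  exact Real.rpow_le_rpow_of_nonpos (by linarith) hcard2 (by linarith)

end Pool.Agent.TH522.UG
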