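import Pool.Agent.TH522.UG.Node

/-!
The rounding theorem for an abstract hierarchy.
-/

namespace Pool.Agent.TH522.UG

open Finset Pool.Agent.H647R3.UG Pool.Agent.H573R3.SL

namespace Main

/-- the number of stages -/
theorem exists_stages (γ : ℝ) (h0 : 0 < γ) (h1 : γ < 1) :
    ∃ T : ℕ, 8 / γ ≤ (16 : ℝ) ^ T ∧ (16 : ℝ) ^ T ≤ 128 / γ ∧ (T : ℝ) ≤ 3 * Real.log (2 / γ) := by
  have h2 : (1 : ℝ) ≤ 8 / γ := by rw [le_div_iff₀ h0]; linarith
  obtain ⟨n, hn1, hn2⟩ := exists_nat_pow_near h2 (by norm_num : (1 : ℝ) < 16)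
  refine ⟨n + 1, hn2.le, ?_, ?_⟩
  · rw [pow_succ]
    calc (16 : ℝ) ^ n * 16 ≤ 8 / γ * 16 := mul_le_mul_of_nonneg_right hn1 (by norm_num)
      _ = 128 / γ := by ring
  · have h3 : (16 : ℝ) ^ (n + 1) ≤ 128 / γ := by
      rw [pow_succ]
      calc (16 : ℝ) ^ n * 16 ≤ 8 / γ * 16 := mul_le_mul_of_nonneg_right hn1 (by norm_num)
        _ = 128 / γ := by ring
    have h4 := Real.log_le_log (by positivity) h3
    rw [Real.log_pow, Real.log_div (by norm_num) h0.ne',
      show (16 : ℝ) = 2 ^ 4 by norm_num, show (128 : ℝ) = 2 ^ 7 by norm_num, Real.log_pow,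
      Real.log_pow] at h4
    rw [Real.log_div (by norm_num) h0.ne']
    have h5 : Real.log γ < 0 := Real.log_neg h0 h1
    have h6 := Real.log_two_gt_d9
    have h7 : 0 < Real.log 2 := by linarith
    push_cast at h4 ⊢
    -- (n+1) * 4 log 2 ≤ 7 log 2 - log γ
    have h8 : ((n : ℝ) + 1) * (4 * Real.log 2) ≤ 7 * (Real.log 2 - Real.log γ) := by linarith
    have h9 : 0 ≤ ((n : ℝ) + 1) := by positivity
    nlinarith

/-- the number of conditioning steps of a stage -/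
theorem steps (n : ℕ) (hn : 1 ≤ n) (q : ℝ) (hq : 0 < q) (hq1 : q ≤ 1) (k : ℕ)
    (hk : 67108864 * (n : ℝ) ^ (2 * q) ≤ k) :
    2 ≤ k * (1 / 16777216 * (Real.exp (-(q * Real.log (n + 1))) * (n : ℝ) ^ (-q))) := by
  have hn0 : (0 : ℝ) < n := by exact_mod_cast hn
  have hn1 : (1 : ℝ) ≤ n := by exact_mod_cast hn
  have h1 : 1 / 2 * (n : ℝ) ^ (-q) ≤ Real.exp (-(q * Real.log (n + 1))) := by
    have h2 : Real.exp (-(q * Real.log (n + 1))) = ((n : ℝ) + 1) ^ (-q) := by
      rw [Real.rpow_def_of_pos (by linarith)]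
      congr 1
      ring
    rw [h2]
    have h3 : (2 * (n : ℝ)) ^ (-q) ≤ ((n : ℝ) + 1) ^ (-q) :=
      Real.rpow_le_rpow_of_nonpos (by linarith) (by linarith) (by linarith)
    refine le_trans ?_ h3
    rw [Real.mul_rpow (by norm_num) hn0.le]
    refine mul_le_mul_of_nonneg_right ?_ (Real.rpow_nonneg hn0.le _)
    have h4 : (2 : ℝ) ^ (-1 : ℝ) ≤ 2 ^ (-q) :=
      Real.rpow_le_rpow_of_exponent_le (by norm_num) (by linarith)
    rw [Real.rpow_neg_one] at h4
    linarith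
  have h5 : 0 < (n : ℝ) ^ (-q) := Real.rpow_pos_of_pos hn0 _
  have h6 : (n : ℝ) ^ (2 * q) * ((n : ℝ) ^ (-q) * (n : ℝ) ^ (-q)) = 1 := by
    rw [← Real.rpow_add hn0, ← Real.rpow_add hn0, show 2 * q + (-q + -q) = 0 by ring,
      Real.rpow_zero]
  calc (2 : ℝ) = 67108864 * (n : ℝ) ^ (2 * q) *
        (1 / 16777216 * (1 / 2 * (n : ℝ) ^ (-q) * (n : ℝ) ^ (-q))) := by
        have : 67108864 * (n : ℝ) ^ (2 * q) *
          (1 / 16777216 * (1 / 2 * (n : ℝ) ^ (-q) * (n : ℝ) ^ (-q))) =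
          2 * ((n : ℝ) ^ (2 * q) * ((n : ℝ) ^ (-q) * (n : ℝ) ^ (-q))) := by ring
        rw [this, h6]; norm_num
    _ ≤ k * (1 / 16777216 * (Real.exp (-(q * Real.log (n + 1))) * (n : ℝ) ^ (-q))) := by
        refine mul_le_mul hk ?_ (by positivity) (Nat.cast_nonneg k)
        refine mul_le_mul_of_nonneg_left ?_ (by norm_num)
        exact mul_le_mul_of_nonneg_right h1 h5.le

/-- the total loss -/
theorem loss (r γ ε m : ℝ) (T : ℕ) (hr : 0 < r) (hr1 : r ≤ 1) (hγ : 0 < γ)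
    (hε : 0 < ε) (hm : 0 < m) (hεγ : 1073741824 * (ε * Real.log (2 / r)) ≤ r * γ ^ 2)
    (hT1 : 8 / γ ≤ (16 : ℝ) ^ T) (hT2 : (16 : ℝ) ^ T ≤ 128 / γ) :
    2 * G (196608 * (Real.log (2 / (r / 2)) / (r / 2))) T (ε * m) (2 * m) ≤ γ * m := by
  have hl2 := Real.log_two_gt_d9
  have hΛ2 : Real.log 2 ≤ Real.log (2 / r) :=
    Real.log_le_log (by norm_num) (by rw [le_div_iff₀ hr]; linarith)
  have hΛ : 0 < Real.log (2 / r) := by linarith
  have h1 : Real.log (2 / (r / 2)) ≤ 2 * Real.log (2 / r) := by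
    have : 2 / (r / 2) = 2 * (2 / r) := by field_simp
    rw [this, Real.log_mul (by norm_num) (by positivity)]
    linarith
  have h1' : 0 ≤ Real.log (2 / (r / 2)) := Real.log_nonneg (by
    rw [le_div_iff₀ (by positivity)]; linarith)
  -- the square root term
  have h2 : 2 * Real.sqrt (196608 * (Real.log (2 / (r / 2)) / (r / 2)) * (ε * m * (2 * m))) ≤
      γ * m / 8 := by
    have h3 : 196608 * (Real.log (2 / (r / 2)) / (r / 2)) * (ε * m * (2 * m)) ≤
        (γ * m / 16) ^ 2 := by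
      have h4 : Real.log (2 / (r / 2)) / (r / 2) * ε ≤ γ ^ 2 / 268435456 := by
        rw [div_mul_eq_mul_div, div_le_iff₀ (by positivity)]
        have h5 : Real.log (2 / (r / 2)) * ε ≤ 2 * Real.log (2 / r) * ε :=
          mul_le_mul_of_nonneg_right h1 hε.le
        nlinarith
      calc 196608 * (Real.log (2 / (r / 2)) / (r / 2)) * (ε * m * (2 * m))
          = 393216 * m ^ 2 * (Real.log (2 / (r / 2)) / (r / 2) * ε) := by ring
        _ ≤ 393216 * m ^ 2 * (γ ^ 2 / 268435456) := mul_le_mul_of_nonneg_left h4 (by positivity)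
        _ ≤ (γ * m / 16) ^ 2 := by
            have : 0 ≤ m ^ 2 * γ ^ 2 := by positivity
            nlinarith
    have h6 := Real.sqrt_le_sqrt h3
    rw [Real.sqrt_sq (by positivity)] at h6
    linarith
  -- the middle term
  have h7 : ε ≤ γ ^ 2 / 268435456 := by
    have h8 : ε * (1 / 2) ≤ ε * Real.log (2 / r) :=
      mul_le_mul_of_nonneg_left (by linarith) hε.le
    have h9 : r * γ ^ 2 ≤ γ ^ 2 := mul_le_of_le_one_left (sq_nonneg _) hr1
    have : 0 ≤ ε := hε.le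
    linarith
  have h10 : (4 : ℝ) ^ T ≤ 128 / γ :=
    (pow_le_pow_left₀ (by norm_num) (by norm_num) T).trans hT2
  have h11 : 24 * ((4 : ℝ) ^ T - 1) * (ε * m) ≤ γ * m / 8 := by
    have h12 : (4 : ℝ) ^ T * ε ≤ γ / 192 := by
      calc (4 : ℝ) ^ T * ε ≤ 128 / γ * (γ ^ 2 / 268435456) :=
            mul_le_mul h10 h7 hε.le (by positivity)
        _ ≤ γ / 192 := by
            have : 128 / γ * (γ ^ 2 / 268435456) = γ * (128 / 268435456) := by field_simp
            rw [this]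
            nlinarith
    have h13 : 24 * ((4 : ℝ) ^ T - 1) * (ε * m) ≤ 24 * m * ((4 : ℝ) ^ T * ε) := by
      have : 0 ≤ ε * m := by positivity
      nlinarith
    have h14 : 24 * m * ((4 : ℝ) ^ T * ε) ≤ 24 * m * (γ / 192) :=
      mul_le_mul_of_nonneg_left h12 (by positivity)
    linarith
  -- the last term
  have h15 : 1 / 2 * (1 / 16 : ℝ) ^ T * (2 * m) ≤ γ * m / 8 := by
    have h16 : (1 / 16 : ℝ) ^ T ≤ γ / 8 := by
      rw [one_div, inv_pow, inv_le_comm₀ (by positivity) (by positivity)]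
      rw [inv_div]
      exact hT1
    have := mul_le_mul_of_nonneg_right h16 hm.le
    linarith
  unfold G
  have : 0 < γ * m := by positivity
  linarith

end Main

/-- the rounding theorem for an abstract hierarchy -/
theorem core {V A E : Type} [Fintype V] [DecidableEq V] [Fintype A] [DecidableEq A] [Fintype E]
    {Q : ℕ → (((V → A) → ℝ) →ₗ[ℝ] ℝ) → Prop} (hQ : Hier Q)
    (s t : E → V) (π : E → Equiv.Perm A) (r γ ε : ℝ) (hr : 0 < r) (hr1 : r ≤ 1) (hγ : 0 < γ)
    (hγ1 : γ < 1) (hε : 0 < ε) (hεγ : 1073741824 * (ε * Real.log (2 / r)) ≤ r * γ ^ 2) (K : ℕ)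
    (hK : 1073741824 * (Real.log (2 / γ) * (Fintype.card V : ℝ) ^ r) ≤ K)
    (L : ((V → A) → ℝ) →ₗ[ℝ] ℝ) (hL : Q K L)
    (hval : (1 - ε) * (Fintype.card E : ℝ) ≤ ∑ e, L (sat (s e) (t e) (π e))) :
    ∃ x : V → A, (1 - γ) * (Fintype.card E : ℝ)
      ≤ ((univ.filter fun e => π e (x (s e)) = x (t e)).card : ℝ) := by
  have hfc := hQ.fct _ _ hL
  obtain ⟨x0⟩ : Nonempty (V → A) := by
    rcases isEmpty_or_nonempty V with h | ⟨⟨v⟩⟩
    · exact ⟨fun v => (h.false v).elim⟩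
    · have h1 : Nonempty A := by
        by_contra hcon
        rw [not_nonempty_iff] at hcon
        have := (hfc.law v v).one
        rw [Finset.univ_eq_empty, Finset.sum_empty] at this
        exact zero_ne_one this
      exact ⟨fun _ => h1.some⟩
  rcases isEmpty_or_nonempty E with hE | ⟨⟨e0⟩⟩
  · exact ⟨x0, by simp⟩
  set m : ℝ := (Fintype.card E : ℝ) with hm
  have hm0 : 0 < m := by
    rw [hm]
    exact_mod_cast Fintype.card_pos_iff.2 ⟨e0⟩
  have hn : 1 ≤ Fintype.card V := Fintype.card_pos_iff.2 ⟨s e0⟩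
  have hn0 : (0 : ℝ) < (Fintype.card V : ℝ) := by exact_mod_cast hn
  have hn1 : (1 : ℝ) ≤ (Fintype.card V : ℝ) := by exact_mod_cast hn
  obtain ⟨T, hT1, hT2, hT3⟩ := Main.exists_stages γ hγ hγ1
  set k : ℕ := ⌈67108864 * (Fintype.card V : ℝ) ^ (2 * (r / 2))⌉₊ with hk
  have hk1 : 67108864 * (Fintype.card V : ℝ) ^ (2 * (r / 2)) ≤ k := Nat.le_ceil _
  have hk2 : (k : ℝ) < 67108864 * (Fintype.card V : ℝ) ^ (2 * (r / 2)) + 1 :=
    Nat.ceil_lt_add_one (by positivity)
  have e1 : 2 * (r / 2) = r := by ring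
  rw [e1] at hk2
  have hnr : 1 ≤ (Fintype.card V : ℝ) ^ r := Real.one_le_rpow hn1 hr.le
  have hTk : T * k ≤ K := by
    have h1 : ((T * k : ℕ) : ℝ) ≤ K := by
      push_cast
      refine le_trans ?_ hK
      calc (T : ℝ) * k ≤ 3 * Real.log (2 / γ) * (67108865 * (Fintype.card V : ℝ) ^ r) := by
            refine mul_le_mul hT3 (by linarith) (Nat.cast_nonneg k) ?_
            exact (Nat.cast_nonneg T).trans hT3
        _ ≤ 1073741824 * (Real.log (2 / γ) * (Fintype.card V : ℝ) ^ r) := by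
            have h2 : 0 ≤ Real.log (2 / γ) * (Fintype.card V : ℝ) ^ r :=
              mul_nonneg (Real.log_nonneg (by rw [le_div_iff₀ hγ]; linarith)) (by linarith)
            nlinarith
    exact_mod_cast h1
  have hL2 : Q (T * k) L := hQ.mono' L (T * k) (K - T * k) (by
    rwa [Nat.add_sub_cancel' hTk])
  have hN : 0 < Real.log ((Fintype.card V : ℝ) + 1) := Real.log_pos (by linarith)
  have hN1 : Real.log (Fintype.card V : ℝ) ≤ Real.log ((Fintype.card V : ℝ) + 1) :=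
    Real.log_le_log hn0 (by linarith)
  have hsteps := Main.steps (Fintype.card V) hn (r / 2) (by positivity) (by linarith) k hk1
  have hErr : ErrL s t π (fun _ => (1 : ℝ)) L ≤ ε * m := by
    unfold ErrL
    simp only [one_mul]
    rw [sum_sub_distrib]
    have h1 : ∑ _e : E, (1 : ℝ) = m := by rw [hm]; simp
    rw [h1]
    linarith
  have hvol : volL s t (fun _ => (1 : ℝ)) = 2 * m := by
    unfold volL
    simp only [one_pow, mul_one]
    exact (T_WT V E s t).2.2.2.2.1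
  have h := node hQ s t π x0 (r / 2) _ (by positivity) (by linarith) hN hN1 k hsteps T
    (fun _ => 1) L (ε * m) (fun _ => zero_le_one) (by positivity) hL2 hErr
  rw [hvol] at h
  obtain ⟨c, hc⟩ := ach_round _ (h.congr (P' := fun _ => 1) fun v => by norm_num)
  have hloss := Main.loss r γ ε m T hr hr1 hγ hε hm0 hεγ hT1 hT2
  exact ⟨c, by linarith⟩

end Pool.Agent.TH522.UG
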