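import Pool.Agent.TH522.UG.Cut

/-!
The recursive rounding.
-/

namespace Pool.Agent.TH522.UG

open Finset Pool.Agent.H647R3.UG Pool.Agent.H573R3.SL

theorem sum_sqrt_le {J : Type} [Fintype J] (μ A B : ℝ) (a b : J → ℝ) (hμ : 0 ≤ μ)
    (ha : ∀ j, 0 ≤ a j) (hb : ∀ j, 0 ≤ b j) (hA : ∑ j, a j ≤ A) (hB : ∑ j, b j ≤ B) :
    ∑ j, Real.sqrt (μ * (a j * b j)) ≤ Real.sqrt (μ * (A * B)) := by
  have h1 : ∑ j, Real.sqrt (μ * (a j * b j)) =
      Real.sqrt μ * ∑ j, Real.sqrt (a j) * Real.sqrt (b j) := by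
    rw [mul_sum]
    refine sum_congr rfl fun j _ => ?_
    rw [Real.sqrt_mul hμ, Real.sqrt_mul (ha j)]
  have hA0 : 0 ≤ ∑ j, a j := sum_nonneg fun j _ => ha j
  have hB0 : 0 ≤ ∑ j, b j := sum_nonneg fun j _ => hb j
  rw [h1, Real.sqrt_mul hμ]
  refine mul_le_mul_of_nonneg_left ?_ (Real.sqrt_nonneg _)
  refine (Real.sum_sqrt_mul_sqrt_le _ ha hb).trans ?_
  rw [← Real.sqrt_mul hA0]
  exact Real.sqrt_le_sqrt (mul_le_mul hA hB hB0 (hA0.trans hA))

/-- the loss after `T` stages -/
noncomputable def G (μ : ℝ) (T : ℕ) (E0 v : ℝ) : ℝ :=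
  2 * Real.sqrt (μ * (E0 * v)) + 24 * (4 ^ T - 1) * E0 + 1 / 2 * (1 / 16) ^ T * v

theorem G_nonneg (μ : ℝ) (T : ℕ) (E0 v : ℝ) (hE : 0 ≤ E0) (hv : 0 ≤ v) : 0 ≤ G μ T E0 v := by
  have h1 : (1 : ℝ) ≤ 4 ^ T := one_le_pow₀ (by norm_num)
  have h2 : 0 ≤ 24 * ((4 : ℝ) ^ T - 1) * E0 :=
    mul_nonneg (mul_nonneg (by norm_num) (by linarith)) hE
  unfold G
  positivity

/-- the recursion of the losses -/
theorem G_rec {J : Type} [Fintype J] (μ : ℝ) (T : ℕ) (E0 v : ℝ) (a b : J → ℝ) (hμ : 0 ≤ μ)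
    (ha : ∀ j, 0 ≤ a j) (hb : ∀ j, 0 ≤ b j)
    (hA : ∑ j, a j ≤ 4 * E0) (hB : ∑ j, b j ≤ v / 16) :
    Real.sqrt (μ * (E0 * v)) + ∑ j, (18 * a j + G μ T (a j) (b j)) ≤ G μ (T + 1) E0 v := by
  have h1 := sum_sqrt_le μ (4 * E0) (v / 16) a b hμ ha hb hA hB
  have h2 : Real.sqrt (μ * (4 * E0 * (v / 16))) = Real.sqrt (μ * (E0 * v)) / 2 := by
    rw [show μ * (4 * E0 * (v / 16)) = (1 / 4) * (μ * (E0 * v)) by ring,
      Real.sqrt_mul (by norm_num), show Real.sqrt (1 / 4) = 1 / 2 by
        rw [show (1 / 4 : ℝ) = (1 / 2) ^ 2 by norm_num]; exact Real.sqrt_sq (by norm_num)]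
    ring
  rw [h2] at h1
  have h3 : ∑ j, (18 * a j + G μ T (a j) (b j)) = 2 * ∑ j, Real.sqrt (μ * (a j * b j))
      + (18 + 24 * (4 ^ T - 1)) * ∑ j, a j + 1 / 2 * (1 / 16) ^ T * ∑ j, b j := by
    rw [mul_sum, mul_sum, mul_sum, ← sum_add_distrib, ← sum_add_distrib]
    refine sum_congr rfl fun j _ => ?_
    unfold G
    ring
  rw [h3]
  have h4 : (1 : ℝ) ≤ 4 ^ T := one_le_pow₀ (by norm_num)
  have h5 : (18 + 24 * ((4 : ℝ) ^ T - 1)) * ∑ j, a j ≤ (18 + 24 * (4 ^ T - 1)) * (4 * E0) :=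
    mul_le_mul_of_nonneg_left hA (by linarith)
  have h6 : 1 / 2 * (1 / 16 : ℝ) ^ T * ∑ j, b j ≤ 1 / 2 * (1 / 16) ^ T * (v / 16) :=
    mul_le_mul_of_nonneg_left hB (by positivity)
  have h7 : G μ (T + 1) E0 v = 2 * Real.sqrt (μ * (E0 * v)) +
      (18 + 24 * (4 ^ T - 1)) * (4 * E0) + 1 / 2 * (1 / 16) ^ T * (v / 16) := by
    unfold G
    rw [pow_succ, pow_succ]
    ring
  rw [h7]
  linarith

section
variable {V A E : Type} [Fintype V] [DecidableEq V] [Fintype A] [DecidableEq A] [Fintype E]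

theorem volL_nonneg (s t : E → V) (f : V → ℝ) : 0 ≤ volL s t f :=
  sum_nonneg fun v _ => mul_nonneg (S2L.dgr_nonneg s t v) (sq_nonneg _)

theorem triv_le (s t : E → V) (π : E → Equiv.Perm A) (x0 : V → A) (h : V → ℝ) (x : ℝ)
    (hx : volL s t h / 2 ≤ x) : Ach s t π (fun v => h v ^ 2) x :=
  (ach_triv (fun v => h v ^ 2) (fun v => sq_nonneg _) x0).mono ((sum_min_le s t h).trans hx)

/-- lower bound of the size of the steps -/
theorem stq_ge (l c0 τ q N : ℝ) (n : ℕ) (hq : 0 < q) (hq1 : q ≤ 1) (hN : 0 < N) (hτ : 0 < τ)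
    (hl : l = 8 * τ * Real.log (2 / q) / (q * N)) (hc : 1 / 128 ≤ c0) :
    1 / 16777216 * (Real.exp (-(q * N)) * (n : ℝ) ^ (-q)) ≤ stq l c0 τ q n := by
  have hΛ : 0 < Real.log (2 / q) := Real.log_pos (by rw [lt_div_iff₀ hq]; linarith)
  have h1 : 8 * τ / l * Real.log (1 / q) ≤ q * N := by
    have h2 : 8 * τ / l = q * N / Real.log (2 / q) := by
      rw [hl]
      field_simp
    have h3 : Real.log (1 / q) ≤ Real.log (2 / q) :=
      Real.log_le_log (by positivity) (by gcongr; norm_num)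
    rw [h2, div_mul_eq_mul_div, div_le_iff₀ hΛ]
    exact mul_le_mul_of_nonneg_left h3 (by positivity)
  have h4 : Real.exp (-(q * N)) ≤ Real.exp (-(8 * τ / l * Real.log (1 / q))) :=
    Real.exp_le_exp.2 (by linarith)
  have h5 : 0 ≤ (n : ℝ) ^ (-q) := Real.rpow_nonneg (Nat.cast_nonneg n) _
  have h6 : (1 / 128 : ℝ) ^ 2 ≤ c0 ^ 2 := pow_le_pow_left₀ (by norm_num) hc 2
  unfold stq
  refine mul_le_mul ?_ (mul_le_mul_of_nonneg_right h4 h5) (by positivity) (by positivity)
  norm_num at h6 ⊢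
  linarith

variable {Q : ℕ → (((V → A) → ℝ) →ₗ[ℝ] ℝ) → Prop}

/-- one part of the soft partition -/
theorem part (hQ : Hier Q) (s t : E → V) (π : E → Equiv.Perm A) (x0 : V → A) (q N : ℝ)
    (hq : 0 < q) (hq1 : q ≤ 1) (hN : 0 < N) (k : ℕ)
    (hk : 2 ≤ k * (1 / 16777216 * (Real.exp (-(q * N)) * (Fintype.card V : ℝ) ^ (-q))))
    (T : ℕ) (μ : ℝ)
    (IH : ∀ (h : V → ℝ) (L : ((V → A) → ℝ) →ₗ[ℝ] ℝ) (E0 : ℝ), (∀ v, 0 ≤ h v) → 0 < E0 →
      Q (T * k) L → ErrL s t π h L ≤ E0 →
      Ach s t π (fun v => h v ^ 2) (G μ T E0 (volL s t h)))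
    (f : V → ℝ) (hf : ∀ v, 0 ≤ f v) (L : ((V → A) → ℝ) →ₗ[ℝ] ℝ) (hL : Q ((T + 1) * k) L)
    (e τ l : ℝ) (he : 0 < e) (hτ : 0 < τ) (hτ1 : τ ≤ 1) (hτe : τ = 49152 * e)
    (hl : l = 8 * τ * Real.log (2 / q) / (q * N))
    (hLS : LSob (cf (wt s t) f) (fun v => dgr s t v * f v ^ 2) l) :
    ∃ v' : ℝ, 0 ≤ v' ∧ v' ≤ 1536 * (ErrL s t π f L + e * volL s t f) / τ ∧
      Ach s t π (fun v => f v ^ 2) (18 * (2 * (ErrL s t π f L + e * volL s t f))
        + G μ T (2 * (ErrL s t π f L + e * volL s t f)) v') := by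
  have hfc := hQ.fct _ _ hL
  have hE0 : 0 ≤ ErrL s t π f L := err_nonneg s t π f hf hfc
  rcases (volL_nonneg s t f).eq_or_lt with h0 | hpos
  · refine ⟨0, le_rfl, by rw [← h0, mul_zero, add_zero]; positivity, ?_⟩
    apply triv_le s t π x0
    rw [← h0, mul_zero, add_zero, zero_div]
    have := G_nonneg μ T (2 * ErrL s t π f L) 0 (by positivity) le_rfl
    linarith
  · set v := volL s t f with hv
    set ε0 : ℝ := ErrL s t π f L / v + e with hε0
    have hε0p : 0 < ε0 := by positivity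
    have hε0v : ε0 * v = ErrL s t π f L + e * v := by
      rw [hε0, add_mul, div_mul_cancel₀ _ hpos.ne']
    set c0 : ℝ := 384 * ε0 / τ with hc0
    have hc0p : 0 < c0 := by positivity
    have hc0τ : 384 * ε0 / c0 = τ := by
      rw [hc0]
      field_simp
    have hc0l : 1 / 128 ≤ c0 := by
      have h1 : e ≤ ε0 := by
        have : 0 ≤ ErrL s t π f L / v := by positivity
        linarith
      rw [hc0, hτe, le_div_iff₀ (by positivity)]
      linarith
    have hΛ : 0 < Real.log (2 / q) := Real.log_pos (by rw [lt_div_iff₀ hq]; linarith)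
    have hlp : 0 < l := by rw [hl]; positivity
    have hk2 : 2 ≤ k * stq l c0 (384 * ε0 / c0) q (Fintype.card V) := by
      rw [hc0τ]
      refine hk.trans (mul_le_mul_of_nonneg_left ?_ (Nat.cast_nonneg k))
      exact stq_ge l c0 τ q N _ hq hq1 hN hτ hl hc0l
    have hL2 : Q (T * k + k) L := by
      have : (T + 1) * k = T * k + k := by ring
      rwa [this] at hL
    obtain ⟨L', hL', hPhi, hErr⟩ := s2 hQ s t π f l c0 ε0 q k hf hpos hlp hLS hc0p hε0p
      (by rw [hc0τ]; exact hτ1) hq hq1 hk2 (T * k) L hL2 (by rw [← hv, hε0v]; nlinarith)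
    rw [← hv] at hPhi hErr
    have hfc' := hQ.fct _ _ hL'
    -- the child
    set h' : V → ℝ := fun v => f v * Real.sqrt (phi L' v) with hh'
    have hh'0 : ∀ v, 0 ≤ h' v := fun v => mul_nonneg (hf v) (Real.sqrt_nonneg _)
    have hh'sq : ∀ v, h' v ^ 2 = f v ^ 2 * phi L' v := fun v => by
      simp only [hh']
      rw [mul_pow, Real.sq_sqrt (phi_nonneg L' v)]
    have hvol' : volL s t h' ≤ 4 * PhiL s t f L' := by
      unfold volL PhiL
      rw [mul_sum]
      refine sum_le_sum fun v _ => ?_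
      rw [hh'sq]
      have h1 := phi_le hfc' v
      have h2 : 0 ≤ dgr s t v * f v ^ 2 := mul_nonneg (S2L.dgr_nonneg s t v) (sq_nonneg _)
      calc dgr s t v * (f v ^ 2 * phi L' v) = (dgr s t v * f v ^ 2) * phi L' v := by ring
        _ ≤ (dgr s t v * f v ^ 2) * (4 * vr L' v) := mul_le_mul_of_nonneg_left h1 h2
        _ = _ := by ring
    have hh'f : ∀ v, h' v ≤ f v := fun v => by
      simp only [hh']
      refine mul_le_of_le_one_right (hf v) ?_
      rw [Real.sqrt_le_one]
      exact phi_le_one L' v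
    have herr' : ErrL s t π h' L' ≤ ErrL s t π f L' := by
      unfold ErrL
      refine sum_le_sum fun e _ => ?_
      refine mul_le_mul_of_nonneg_right ?_ (by linarith [hfc'.sat1 (s e) (t e) (π e)])
      exact mul_le_mul (hh'f _) (hh'f _) (hh'0 _) (hf _)
    have hE' : 0 < 2 * (ErrL s t π f L + e * v) := by positivity
    have hE'2 : 2 * ε0 * v = 2 * (ErrL s t π f L + e * v) := by rw [mul_assoc, hε0v]
    rw [hE'2] at hErr
    have h1 := IH h' L' (2 * (ErrL s t π f L + e * v)) hh'0 hE' hL' (herr'.trans hErr)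
    refine ⟨volL s t h', volL_nonneg s t h', ?_, ?_⟩
    · refine hvol'.trans ((mul_le_mul_of_nonneg_left hPhi (by norm_num)).trans (le_of_eq ?_))
      have h2 : c0 * v = 384 * (ErrL s t π f L + e * v) / τ := by
        rw [hc0, ← hε0v]
        ring
      rw [h2]
      ring
    · have h2 := ach_part hfc' f hf _ (h1.congr hh'sq)
      refine h2.mono ?_
      linarith

/-- the recursive rounding -/
theorem node (hQ : Hier Q) (s t : E → V) (π : E → Equiv.Perm A) (x0 : V → A) (q N : ℝ)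
    (hq : 0 < q) (hq1 : q ≤ 1) (hN : 0 < N) (hN1 : Real.log (Fintype.card V) ≤ N) (k : ℕ)
    (hk : 2 ≤ k * (1 / 16777216 * (Real.exp (-(q * N)) * (Fintype.card V : ℝ) ^ (-q))))
    (T : ℕ) : ∀ (h : V → ℝ) (L : ((V → A) → ℝ) →ₗ[ℝ] ℝ) (E0 : ℝ), (∀ v, 0 ≤ h v) → 0 < E0 →
      Q (T * k) L → ErrL s t π h L ≤ E0 →
      Ach s t π (fun v => h v ^ 2)
        (G (196608 * (Real.log (2 / q) / q)) T E0 (volL s t h)) := by
  have hΛ2 : Real.log 2 ≤ Real.log (2 / q) :=
    Real.log_le_log (by norm_num) (by rw [le_div_iff₀ hq]; linarith)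
  have hl2 := Real.log_two_gt_d9
  have hΛ : 0 < Real.log (2 / q) := by linarith
  have hLq : 1 / 2 ≤ Real.log (2 / q) / q := by
    rw [le_div_iff₀ hq]
    nlinarith
  set μ : ℝ := 196608 * (Real.log (2 / q) / q) with hμ
  have hμ0 : 0 ≤ μ := by positivity
  induction T with
  | zero =>
    intro h L E0 hh hE0 hL hErr
    apply triv_le s t π x0
    unfold G
    have := Real.sqrt_nonneg (μ * (E0 * volL s t h))
    simp only [pow_zero, sub_self, mul_zero, zero_mul, add_zero, mul_one]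
    linarith
  | succ T IH =>
    intro h L E0 hh hE0 hL hErr
    have hfc := hQ.fct _ _ hL
    rcases (volL_nonneg s t h).eq_or_lt with h0 | hpos
    · apply triv_le s t π x0
      rw [← h0, zero_div]
      exact G_nonneg μ (T + 1) E0 0 hE0.le le_rfl
    rcases lt_or_ge (volL s t h) (49152 * E0) with hbig | hbig
    · -- large error: trivial bound
      apply triv_le s t π x0
      have h1 : volL s t h / 2 ≤ Real.sqrt (μ * (E0 * volL s t h)) := by
        apply Real.le_sqrt_of_sq_le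
        have h2 : volL s t h / 4 ≤ μ * E0 := by
          have h3 : 98304 ≤ μ := by rw [hμ]; linarith
          nlinarith
        have h3 := mul_le_mul_of_nonneg_right h2 hpos.le
        nlinarith
      have h2 : (1 : ℝ) ≤ 4 ^ (T + 1) := one_le_pow₀ (by norm_num)
      have h3 : 0 ≤ 24 * ((4 : ℝ) ^ (T + 1) - 1) * E0 :=
        mul_nonneg (mul_nonneg (by norm_num) (by linarith)) hE0.le
      have h4 : 0 ≤ 1 / 2 * (1 / 16 : ℝ) ^ (T + 1) * volL s t h := by positivity
      unfold G
      have h5 := Real.sqrt_nonneg (μ * (E0 * volL s t h))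
      linarith
    · set v := volL s t h with hv
      set e : ℝ := E0 / v with he
      have hep : 0 < e := by positivity
      set τ : ℝ := 49152 * e with hτ
      have hτp : 0 < τ := by positivity
      have hτ1 : τ ≤ 1 := by
        rw [hτ, he, ← mul_div_assoc, div_le_one hpos]
        exact hbig
      obtain ⟨l, hl⟩ : ∃ l : ℝ, l = 8 * τ * Real.log (2 / q) / (q * N) := ⟨_, rfl⟩
      have hlp : 0 < l := by rw [hl]; positivity
      obtain ⟨hw0, hws, hwd, hwC, hwsum, hwend, hwF, hwh, hwins⟩ := T_WT V E s t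
      have hcf0 : ∀ u v, 0 ≤ cf (wt s t) h u v := fun u v =>
        mul_nonneg (hw0 u v) (mul_nonneg (hh u) (hh v))
      obtain ⟨g, hg, hgL, hgE⟩ := softpart (cf (wt s t) h) (fun v => dgr s t v * h v ^ 2) l
        hcf0 (fun u v => by unfold cf; rw [hws u v, mul_comm (h u)])
        (fun v => mul_nonneg (S2L.dgr_nonneg s t v) (sq_nonneg _))
        (by
          intro u hu v
          unfold cf
          rcases mul_eq_zero.1 hu with h1 | h1
          · have h2 : ∑ v, wt s t u v = 0 := by rw [hwd, h1]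
            have h3 := (sum_eq_zero_iff_of_nonneg (fun v _ => hw0 u v)).1 h2 v (mem_univ v)
            rw [h3, zero_mul]
          · have h2 : h u = 0 := pow_eq_zero_iff (two_ne_zero) |>.1 h1
            rw [h2, zero_mul, mul_zero])
        hlp.le
      have hgE2 : ∑ i, en (cf (wt s t) h) (g i) ≤ l * (v * N) := by
        refine hgE.trans (mul_le_mul_of_nonneg_left ?_ hlp.le)
        exact mul_le_mul_of_nonneg_left hN1 hpos.le
      have hcost := split_cost s t h hh g hg _ hgE2
      have hcost2 : volL s t h / 2 * (l * (v * N)) = μ * (E0 * v) := by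
        have h1 : e * v = E0 := by rw [he, div_mul_cancel₀ _ hpos.ne']
        rw [← hv, hl, hμ, hτ, ← h1]
        field_simp
        ring
      rw [hcost2] at hcost
      -- the parts
      set f : Fin (Fintype.card V + 1) → V → ℝ := fun j v => h v * g j v with hf
      have hf0 : ∀ j v, 0 ≤ f j v := fun j v => mul_nonneg (hh v) (hg.1 j v)
      have hLS : ∀ j, LSob (cf (wt s t) (f j)) (fun v => dgr s t v * f j v ^ 2) l := by
        intro j
        have h1 := hgL j
        have h2 : cf (cf (wt s t) h) (g j) = cf (wt s t) (f j) := by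
          funext u v
          simp only [cf, hf]
          ring
        have h3 : (fun v => dgr s t v * h v ^ 2 * g j v ^ 2) =
            fun v => dgr s t v * f j v ^ 2 := by
          funext v
          simp only [hf]
          ring
        rwa [h2, h3] at h1
      have hparts := fun j => part hQ s t π x0 q N hq hq1 hN k hk T μ IH (f j) (hf0 j) L hL
        e τ l hep hτp hτ1 hτ hl (hLS j)
      choose v' hv'0 hv'1 hv'A using hparts
      have hsum := ach_split (s := s) (t := t) (π := π) (fun v => h v ^ 2)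
        (fun j v => f j v ^ 2) _ (fun v => by
          simp only [hf, mul_pow]
          rw [← mul_sum, hg.2 v, mul_one]) hv'A
      refine hsum.mono ?_
      -- sums of the parameters
      have hsE : ∑ j, ErrL s t π (f j) L ≤ ErrL s t π h L := by
        unfold ErrL
        rw [sum_comm]
        refine sum_le_sum fun e _ => ?_
        rw [← sum_mul]
        refine mul_le_mul_of_nonneg_right ?_ (by linarith [hfc.sat1 (s e) (t e) (π e)])
        have h1 : ∑ j, f j (s e) * f j (t e) = h (s e) * h (t e) * ∑ j, g j (s e) * g j (t e) := by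
          rw [mul_sum]
          refine sum_congr rfl fun j _ => ?_
          simp only [hf]
          ring
        have h2 : ∑ j, g j (s e) * g j (t e) ≤ 1 := by
          calc ∑ j, g j (s e) * g j (t e) ≤ ∑ j, (g j (s e) ^ 2 + g j (t e) ^ 2) / 2 :=
                sum_le_sum fun j _ => by nlinarith [sq_nonneg (g j (s e) - g j (t e))]
            _ = 1 := by rw [← sum_div, sum_add_distrib, hg.2, hg.2]; norm_num
        rw [h1]
        exact mul_le_of_le_one_right (mul_nonneg (hh _) (hh _)) h2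
      have hsv : ∑ j, volL s t (f j) = v := by
        rw [hv]
        unfold volL
        rw [sum_comm]
        refine sum_congr rfl fun v _ => ?_
        simp only [hf, mul_pow]
        rw [← mul_sum, ← mul_sum, hg.2 v, mul_one]
      have hev : e * v = E0 := by rw [he, div_mul_cancel₀ _ hpos.ne']
      have hs1 : ∑ j, (ErrL s t π (f j) L + e * volL s t (f j)) ≤ 2 * E0 := by
        rw [sum_add_distrib, ← mul_sum, hsv, hev]
        linarith
      have hs2 : ∑ j, 2 * (ErrL s t π (f j) L + e * volL s t (f j)) ≤ 4 * E0 := by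
        rw [← mul_sum]
        linarith
      have hs3 : ∑ j, v' j ≤ v / 16 := by
        calc ∑ j, v' j ≤ ∑ j, 1536 * (ErrL s t π (f j) L + e * volL s t (f j)) / τ :=
              sum_le_sum fun j _ => hv'1 j
          _ = 1536 / τ * ∑ j, (ErrL s t π (f j) L + e * volL s t (f j)) := by
              rw [mul_sum]
              exact sum_congr rfl fun j _ => by ring
          _ ≤ 1536 / τ * (2 * E0) := mul_le_mul_of_nonneg_left hs1 (by positivity)
          _ = v / 16 := by
              rw [hτ, he]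
              field_simp
              ring
      have hG := G_rec μ T E0 v (fun j => 2 * (ErrL s t π (f j) L + e * volL s t (f j))) v' hμ0
        (fun j => mul_nonneg (by norm_num) (add_nonneg (err_nonneg s t π (f j) (hf0 j) hfc)
          (mul_nonneg hep.le (volL_nonneg s t (f j))))) hv'0 hs2 hs3
      exact (add_le_add hcost le_rfl).trans hG

end

end Pool.Agent.TH522.UG
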