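import Pool.Agent.TH522.UG.Cond

/-!
The soft partition for general masses, and the cost of a soft partition.
-/

namespace Pool.Agent.TH522.UG

open Finset Pool.Agent.H647R3.UG Pool.Agent.H573R3.SL

/-- choice of a scaling factor -/
theorem exists_scale {V : Type} [Fintype V] (w : V → V → ℝ) (m : V → ℝ)
    (hw : ∀ u v, 0 ≤ w u v) (hm : ∀ v, 0 ≤ m v) (h0 : ∀ u, m u = 0 → ∀ v, w u v = 0) :
    ∃ s0 : ℝ, 0 < s0 ∧ ∀ u, s0 * ∑ v, w u v ≤ m u := by
  set B : ℝ := 1 + ∑ u, (∑ v, w u v) / m u with hB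
  have h1 : ∀ u, 0 ≤ (∑ v, w u v) / m u := fun u =>
    div_nonneg (sum_nonneg fun v _ => hw u v) (hm u)
  have hS : 0 ≤ ∑ u, (∑ v, w u v) / m u := sum_nonneg fun u _ => h1 u
  have hB0 : 0 < B := by rw [hB]; linarith
  refine ⟨1 / B, by positivity, fun u => ?_⟩
  rw [one_div, inv_mul_le_iff₀ hB0]
  rcases (hm u).eq_or_lt with h | h
  · rw [sum_eq_zero fun v _ => h0 u h.symm v, ← h, mul_zero]
  · have h2 : (∑ v, w u v) / m u ≤ B := by
      have := single_le_sum (f := fun u => (∑ v, w u v) / m u) (fun u _ => h1 u) (mem_univ u)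
      rw [hB]
      linarith
    rw [div_le_iff₀ h] at h2
    exact h2

/-- the soft partition for general masses -/
theorem softpart {V : Type} [Fintype V] [DecidableEq V] (w : V → V → ℝ) (m : V → ℝ) (l : ℝ)
    (hw : ∀ u v, 0 ≤ w u v) (hs : ∀ u v, w u v = w v u) (hm : ∀ v, 0 ≤ m v)
    (h0 : ∀ u, m u = 0 → ∀ v, w u v = 0) (hl : 0 ≤ l) :
    ∃ g : Fin (Fintype.card V + 1) → V → ℝ, IsSoft g ∧
      (∀ i, LSob (cf w (g i)) (fun v => m v * g i v ^ 2) l) ∧
      ∑ i, en w (g i) ≤ l * ((∑ v, m v) * Real.log (Fintype.card V)) := by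
  obtain ⟨s0, hs0, hs1⟩ := exists_scale w m hw hm h0
  set w' : V → V → ℝ := fun u v => s0 * w u v + if u = v then m u - s0 * ∑ x, w u x else 0
    with hw'
  have hw0 : ∀ u v, 0 ≤ w' u v := by
    intro u v
    have h1 : 0 ≤ s0 * w u v := mul_nonneg hs0.le (hw u v)
    have h2 : (0 : ℝ) ≤ if u = v then m u - s0 * ∑ x, w u x else 0 := by
      split_ifs
      · linarith [hs1 u]
      · exact le_rfl
    simp only [hw']
    linarith
  have hws : ∀ u v, w' u v = w' v u := by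
    intro u v
    simp only [hw']
    rcases eq_or_ne u v with h | h
    · rw [h]
    · rw [if_neg h, if_neg h.symm, hs u v]
  have hdw : ∀ u, dw w' u = m u := by
    intro u
    simp only [dw, hw']
    rw [sum_add_distrib, ← mul_sum, sum_ite_eq, if_pos (mem_univ u)]
    ring
  have hen : ∀ a b : V → ℝ, en (cf w' a) b = s0 * en (cf w a) b := by
    intro a b
    unfold en cf
    have h1 : ∀ u v, w' u v * (a u * a v) * (b u - b v) ^ 2 =
        s0 * (w u v * (a u * a v) * (b u - b v) ^ 2) := by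
      intro u v
      simp only [hw']
      rcases eq_or_ne u v with h | h
      · rw [h, sub_self]; ring
      · rw [if_neg h]; ring
    simp only [h1, ← mul_sum]
    ring
  have hen1 : ∀ b : V → ℝ, en w' b = s0 * en w b := by
    intro b
    have h1 := hen (fun _ => 1) b
    have h2 : ∀ w : V → V → ℝ, cf w (fun _ => 1) = w := fun w => by
      funext u v; simp [cf]
    rwa [h2, h2] at h1
  obtain ⟨g, hg, hL, hE⟩ := T_SP T_SPM (T_SPR T_SPH) T_SPS T_SPU (T_SPL T_EP) V w' (s0 * l) hw0 hws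
    (mul_nonneg hs0.le hl)
  refine ⟨g, hg, fun i h hh => ?_, ?_⟩
  · have h1 := hL i h hh
    have h2 : mf w' (g i) = fun v => m v * g i v ^ 2 := by
      funext v
      simp only [mf, hdw]
    rw [h2, hen, mul_assoc] at h1
    exact le_of_mul_le_mul_left h1 hs0
  · simp only [hen1, hdw] at hE
    rw [← mul_sum, mul_assoc] at hE
    exact le_of_mul_le_mul_left hE hs0

theorem ins_univ {V E : Type} [Fintype V] [DecidableEq V] [Fintype E] (s t : E → V) :
    ins s t (univ : Finset V) = univ := by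
  ext e; simp [ins]

/-- energy as a sum over the edges -/
theorem en_cf {V E : Type} [Fintype V] [DecidableEq V] [Fintype E] (s t : E → V)
    (h g : V → ℝ) :
    en (cf (wt s t) h) g = ∑ e, h (s e) * h (t e) * (g (s e) - g (t e)) ^ 2 := by
  obtain ⟨-, -, -, -, -, -, hF, -, -⟩ := T_WT V E s t
  have h1 := hF univ (fun u v => h u * h v * (g u - g v) ^ 2) (fun u v => by ring)
  rw [ins_univ] at h1
  unfold en cf
  have h2 : ∀ u v, wt s t u v * (h u * h v) * (g u - g v) ^ 2 =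
      wt s t u v * (h u * h v * (g u - g v) ^ 2) := fun u v => by ring
  simp only [h2]
  rw [h1]
  ring

theorem sum_sq_le {V E : Type} [Fintype V] [DecidableEq V] [Fintype E] (s t : E → V)
    (h : V → ℝ) : ∑ e, (h (s e) ^ 2 + h (t e) ^ 2) ≤ volL s t h := by
  obtain ⟨-, -, -, -, -, -, -, hh, -⟩ := T_WT V E s t
  have h1 := hh univ (fun v => h v ^ 2) (fun v => sq_nonneg _)
  rw [ins_univ] at h1
  exact h1

theorem sum_mul_le {V E : Type} [Fintype V] [DecidableEq V] [Fintype E] (s t : E → V)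
    (h : V → ℝ) : ∑ e, h (s e) * h (t e) ≤ volL s t h / 2 := by
  have h1 := sum_sq_le s t h
  have h2 : ∑ e, h (s e) * h (t e) ≤ ∑ e, (h (s e) ^ 2 + h (t e) ^ 2) / 2 :=
    sum_le_sum fun e _ => by nlinarith [sq_nonneg (h (s e) - h (t e))]
  rw [← sum_div] at h2
  linarith

theorem sum_min_le {V E : Type} [Fintype V] [DecidableEq V] [Fintype E] (s t : E → V)
    (h : V → ℝ) : ∑ e, min (h (s e) ^ 2) (h (t e) ^ 2) ≤ volL s t h / 2 := by
  have h1 := sum_sq_le s t h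
  have h2 : ∑ e, min (h (s e) ^ 2) (h (t e) ^ 2) ≤ ∑ e, (h (s e) ^ 2 + h (t e) ^ 2) / 2 :=
    sum_le_sum fun e _ => by
      have h3 := min_le_left (h (s e) ^ 2) (h (t e) ^ 2)
      have h4 := min_le_right (h (s e) ^ 2) (h (t e) ^ 2)
      linarith
  rw [← sum_div] at h2
  linarith

/-- cost of a soft partition on one edge -/
theorem edge_cost {I : Type} [Fintype I] (p q : ℝ) (hp : 0 ≤ p) (hq : 0 ≤ q) (a b : I → ℝ)
    (ha : ∀ i, 0 ≤ a i) (hb : ∀ i, 0 ≤ b i) (ha1 : ∑ i, a i ^ 2 = 1) (hb1 : ∑ i, b i ^ 2 = 1) :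
    min (p ^ 2) (q ^ 2) - ∑ i, min ((p * a i) ^ 2) ((q * b i) ^ 2)
      ≤ p * q * Real.sqrt (∑ i, (a i - b i) ^ 2) := by
  -- the distance
  have key : 1 - ∑ i, min (a i ^ 2) (b i ^ 2) ≤ Real.sqrt (∑ i, (a i - b i) ^ 2) := by
    have h1 : ∀ i, min (a i ^ 2) (b i ^ 2) =
        (a i ^ 2 + b i ^ 2) / 2 - |a i - b i| * (a i + b i) / 2 := by
      intro i
      rcases le_total (a i) (b i) with h | h
      · rw [min_eq_left (pow_le_pow_left₀ (ha i) h 2), abs_of_nonpos (by linarith)]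
        ring
      · rw [min_eq_right (pow_le_pow_left₀ (hb i) h 2), abs_of_nonneg (by linarith)]
        ring
    rw [sum_congr rfl fun i _ => h1 i, sum_sub_distrib, ← sum_div, ← sum_div, sum_add_distrib,
      ha1, hb1]
    have h2 : (∑ i, |a i - b i| * (a i + b i)) ^ 2 ≤
        (∑ i, |a i - b i| ^ 2) * ∑ i, (a i + b i) ^ 2 := sum_mul_sq_le_sq_mul_sq _ _ _
    have h3 : ∑ i, (a i + b i) ^ 2 ≤ 4 := by
      calc ∑ i, (a i + b i) ^ 2 ≤ ∑ i, (2 * a i ^ 2 + 2 * b i ^ 2) :=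
            sum_le_sum fun i _ => by nlinarith [sq_nonneg (a i - b i)]
        _ = 4 := by rw [sum_add_distrib, ← mul_sum, ← mul_sum, ha1, hb1]; norm_num
    have h4 : ∑ i, |a i - b i| ^ 2 = ∑ i, (a i - b i) ^ 2 :=
      sum_congr rfl fun i _ => sq_abs _
    rw [h4] at h2
    have h5 : 0 ≤ ∑ i, (a i - b i) ^ 2 := sum_nonneg fun i _ => sq_nonneg _
    have h6 : (∑ i, |a i - b i| * (a i + b i)) ^ 2 ≤ (2 * Real.sqrt (∑ i, (a i - b i) ^ 2)) ^ 2 := by
      rw [mul_pow, Real.sq_sqrt h5]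
      nlinarith
    have h7 := abs_le_of_sq_le_sq' h6 (by positivity)
    linarith [h7.2]
  have hX := Real.sqrt_nonneg (∑ i, (a i - b i) ^ 2)
  rcases le_total p q with h | h
  · have h1 : p ^ 2 ≤ q ^ 2 := pow_le_pow_left₀ hp h 2
    rw [min_eq_left h1]
    have h2 : p ^ 2 * ∑ i, min (a i ^ 2) (b i ^ 2) ≤ ∑ i, min ((p * a i) ^ 2) ((q * b i) ^ 2) := by
      rw [mul_sum]
      refine sum_le_sum fun i _ => le_min ?_ ?_
      · rw [mul_pow]
        exact mul_le_mul_of_nonneg_left (min_le_left _ _) (sq_nonneg _)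
      · rw [mul_pow]
        exact (mul_le_mul_of_nonneg_left (min_le_right _ _) (sq_nonneg _)).trans
          (mul_le_mul_of_nonneg_right h1 (sq_nonneg _))
    calc p ^ 2 - ∑ i, min ((p * a i) ^ 2) ((q * b i) ^ 2)
        ≤ p ^ 2 * (1 - ∑ i, min (a i ^ 2) (b i ^ 2)) := by linarith
      _ ≤ p ^ 2 * Real.sqrt (∑ i, (a i - b i) ^ 2) := mul_le_mul_of_nonneg_left key (sq_nonneg _)
      _ ≤ p * q * Real.sqrt (∑ i, (a i - b i) ^ 2) :=
          mul_le_mul_of_nonneg_right (by nlinarith) hX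
  · have h1 : q ^ 2 ≤ p ^ 2 := pow_le_pow_left₀ hq h 2
    rw [min_eq_right h1]
    have h2 : q ^ 2 * ∑ i, min (a i ^ 2) (b i ^ 2) ≤ ∑ i, min ((p * a i) ^ 2) ((q * b i) ^ 2) := by
      rw [mul_sum]
      refine sum_le_sum fun i _ => le_min ?_ ?_
      · rw [mul_pow]
        exact (mul_le_mul_of_nonneg_left (min_le_left _ _) (sq_nonneg _)).trans
          (mul_le_mul_of_nonneg_right h1 (sq_nonneg _))
      · rw [mul_pow]
        exact mul_le_mul_of_nonneg_left (min_le_right _ _) (sq_nonneg _)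
    calc q ^ 2 - ∑ i, min ((p * a i) ^ 2) ((q * b i) ^ 2)
        ≤ q ^ 2 * (1 - ∑ i, min (a i ^ 2) (b i ^ 2)) := by linarith
      _ ≤ q ^ 2 * Real.sqrt (∑ i, (a i - b i) ^ 2) := mul_le_mul_of_nonneg_left key (sq_nonneg _)
      _ ≤ p * q * Real.sqrt (∑ i, (a i - b i) ^ 2) :=
          mul_le_mul_of_nonneg_right (by nlinarith) hX

/-- cost of a soft partition -/
theorem split_cost {V E I : Type} [Fintype V] [DecidableEq V] [Fintype E] [Fintype I]
    (s t : E → V) (h : V → ℝ) (hh : ∀ v, 0 ≤ h v) (g : I → V → ℝ) (hg : IsSoft g) (X : ℝ)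
    (hX : ∑ i, en (cf (wt s t) h) (g i) ≤ X) :
    ∑ e, (min (h (s e) ^ 2) (h (t e) ^ 2)
        - ∑ i, min ((h (s e) * g i (s e)) ^ 2) ((h (t e) * g i (t e)) ^ 2))
      ≤ Real.sqrt (volL s t h / 2 * X) := by
  have h1 : ∑ e, (min (h (s e) ^ 2) (h (t e) ^ 2)
        - ∑ i, min ((h (s e) * g i (s e)) ^ 2) ((h (t e) * g i (t e)) ^ 2))
      ≤ ∑ e, h (s e) * h (t e) * Real.sqrt (∑ i, (g i (s e) - g i (t e)) ^ 2) :=
    sum_le_sum fun e _ => edge_cost _ _ (hh _) (hh _) (fun i => g i (s e)) (fun i => g i (t e))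
      (fun i => hg.1 i _) (fun i => hg.1 i _) (hg.2 _) (hg.2 _)
  refine h1.trans (Real.le_sqrt_of_sq_le ?_)
  have h2 := Finset.sum_sq_le_sum_mul_sum_of_sq_le_mul (univ : Finset E)
    (r := fun e => h (s e) * h (t e) * Real.sqrt (∑ i, (g i (s e) - g i (t e)) ^ 2))
    (f := fun e => h (s e) * h (t e))
    (g := fun e => h (s e) * h (t e) * ∑ i, (g i (s e) - g i (t e)) ^ 2)
    (fun e _ => mul_nonneg (hh _) (hh _))
    (fun e _ => mul_nonneg (mul_nonneg (hh _) (hh _)) (sum_nonneg fun i _ => sq_nonneg _))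
    (fun e _ => by
      rw [mul_pow, Real.sq_sqrt (sum_nonneg fun i _ => sq_nonneg _)]
      exact le_of_eq (by ring))
  refine h2.trans ?_
  have h3 : ∑ e, h (s e) * h (t e) * ∑ i, (g i (s e) - g i (t e)) ^ 2 =
      ∑ i, en (cf (wt s t) h) (g i) := by
    simp only [en_cf, mul_sum]
    exact sum_comm
  have h0 : ∀ i, 0 ≤ en (cf (wt s t) h) (g i) := by
    intro i
    rw [en_cf]
    exact sum_nonneg fun e _ => mul_nonneg (mul_nonneg (hh _) (hh _)) (sq_nonneg _)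
  rw [h3]
  have h4 : 0 ≤ ∑ e, h (s e) * h (t e) := sum_nonneg fun e _ => mul_nonneg (hh _) (hh _)
  exact mul_le_mul (sum_mul_le s t h) hX (sum_nonneg fun i _ => h0 i) (h4.trans (sum_mul_le s t h))

end Pool.Agent.TH522.UG
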